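import Pool.Agent.H88.GX.Ga
import Pool.Agent.H76.OD.Lt

/-!
ROW Gb (project MP_78d38b_GN, about 150 lines): the groups.  Use the STATEMENTS of Ga and of Pool/Agent/H76/OD/Lt.lean.

exists_VG: the local conditions are subgroups of `HH F L` (`H30ZO.exists_WW` in Pool/Agent/H30/ZO/Ch.lean for `k = F`, `i` the map to a completion or a real embedding, the curve `D^2 a, D^3 b` with root `D θ` (`Cub F L (D^2 a) (D^3 b) (D θ)`: the twist of `S.cub`, see Pool/Agent/H76/OD/Lt.lean or H76PP for `Cub` of a twist; discriminant `D^6 (4 a^3 + 27 b^2) ≠ 0`);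
intersection of all of them. exists_YG: the same with the evenness conditions (`eo` additive, `H38T1.eo_add`, `eo_zero`); finite: contained in the group of classes of even order outside a finite set of places (`H76MQ.HH`/`fin_HH` in Pool/Agent/H76/MQ, or `H24TD` finiteness of `{c | eo w c = 0 for w ∉ S}`: number of elements of the `S`-units modulo squares and the class group),
the set of places `w` of `L` with `dn K (dn F w) ∈ Sg ∪ T` being finite.
V_iff_Y: `v` with `dn K v ∉ Sg` is good for `E_D` (`hok`): `Wc_good` of Lt.lean: `S.Lv D v c ↔ eo w c = 0` for all `w` above `v` (`c ∈ HH`); valuations of elements of `K` at `v`: `v.valuation F (algebraMap K F x) = 1` if `(dn K v).valuation K x = 1` (Pool/Agent/H76/PP/Ta.lean `val_one`).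
Y_of_triv: a class which is a square at the places above `Sg` and positive at the real places satisfies the local conditions (`Wc_sq`, `Wc_pos_tw` of Lt.lean).
-/

set_option autoImplicit false
set_option linter.unusedSectionVars false
open scoped Classical

open WithZero NumberField IsDedekindDomain H38RT
open H38T1 (SC sc scu rep eo la si OddP)
open H76PP (Cub LC ev scm dn)

namespace H88GX

variable {K F L : Type} [Field K] [NumberField K] [Field F] [NumberField F] [Field L]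
  [NumberField L] [Algebra K F] [Algebra F L] {a b : K} {θ : L}

lemma Gb_cub (S : Ext K F L a b θ) {D : K} (hD : D ≠ 0) :
    Cub F L (algebraMap K F (D ^ 2 * a)) (algebraMap K F (D ^ 3 * b))
      (algebraMap F L (algebraMap K F D) * θ) := by
  have h := H76PP.Tf_twist S.cub (D := algebraMap K F D) ((map_ne_zero _).2 hD)
  rw [map_mul, map_pow, map_mul, map_pow]
  exact h

lemma Gb_dF (S : Ext K F L a b θ) :
    4 * (algebraMap K F a) ^ 3 + 27 * (algebraMap K F b) ^ 2 ≠ 0 := by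
  have e : 4 * (algebraMap K F a) ^ 3 + 27 * (algebraMap K F b) ^ 2 =
      algebraMap K F (4 * a ^ 3 + 27 * b ^ 2) := by
    simp only [map_add, map_mul, map_pow, map_ofNat]
  rw [e]
  exact (map_ne_zero _).2 S.dne

lemma Gb_dE (S : Ext K F L a b θ) {D : K} (hD : D ≠ 0) {E : Type} [Field E] (i : F →+* E) :
    4 * i (algebraMap K F (D ^ 2 * a)) ^ 3 + 27 * i (algebraMap K F (D ^ 3 * b)) ^ 2 ≠ 0 := by
  have e : 4 * i (algebraMap K F (D ^ 2 * a)) ^ 3 + 27 * i (algebraMap K F (D ^ 3 * b)) ^ 2 =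
      i (algebraMap K F (4 * (D ^ 2 * a) ^ 3 + 27 * (D ^ 3 * b) ^ 2)) := by
    simp only [map_add, map_mul, map_pow, map_ofNat]
  rw [e]
  exact (map_ne_zero i).2 ((map_ne_zero _).2 (H76OD.Lt_dne hD S.dne))

lemma Gb_Wv (S : Ext K F L a b θ) {D : K} (hD : D ≠ 0) (v : HeightOneSpectrum (𝓞 F)) :
    ∃ W : AddSubgroup (SC L), ∀ c, c ∈ W ↔ c ∈ H30ZO.HH F L ∧ S.Lv D v c := by
  have _ : CharZero (v.adicCompletion F) := H36CY.char_zero v
  exact H30ZO.exists_WW (Gb_cub S hD) (algebraMap F (v.adicCompletion F)) (Gb_dE S hD _)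
    (H24PD.inf_fin v _ _)

lemma Gb_Ws (S : Ext K F L a b θ) {D : K} (hD : D ≠ 0) (s : F →+* ℝ) :
    ∃ W : AddSubgroup (SC L), ∀ c, c ∈ W ↔ c ∈ H30ZO.HH F L ∧ S.Lr D s c :=
  H30ZO.exists_WW (Gb_cub S hD) s (Gb_dE S hD _) (H24PD.inf_real _ _)

theorem exists_VG (S : Ext K F L a b θ) {D : K} (hD : D ≠ 0) :
    ∃ W : AddSubgroup (SC L), ∀ c, c ∈ W ↔ S.V D c := by
  choose Wv hWv using fun v => Gb_Wv S hD v
  choose Ws hWs using fun s => Gb_Ws S hD s
  refine ⟨H30ZO.HH F L ⊓ ((⨅ v, Wv v) ⊓ (⨅ s, Ws s)), fun c => ?_⟩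
  rw [AddSubgroup.mem_inf, AddSubgroup.mem_inf, AddSubgroup.mem_iInf, AddSubgroup.mem_iInf]
  constructor
  · rintro ⟨h1, h2, h3⟩
    exact ⟨h1, fun v => ((hWv v c).1 (h2 v)).2, fun s => ((hWs s c).1 (h3 s)).2⟩
  · rintro ⟨h1, h2, h3⟩
    exact ⟨h1, fun v => (hWv v c).2 ⟨h1, h2 v⟩, fun s => (hWs s c).2 ⟨h1, h3 s⟩⟩

/-- The classes which are even outside a set of places. -/
def Gb_ev (P : HeightOneSpectrum (𝓞 L) → Prop) : AddSubgroup (SC L) where
  carrier := {c | ∀ w, P w → eo w c = 0}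
  zero_mem' := fun w _ => H38T1.eo_zero w
  add_mem' := by
    intro c c' h h' w hw
    rw [H38T1.eo_add, h w hw, h' w hw, add_zero]
  neg_mem' := by
    intro c h
    have h2 : -c = c := by
      have h3 := H38T1.SC.two_smul c
      rw [two_nsmul] at h3
      exact neg_eq_of_add_eq_zero_left h3
    rw [h2]
    exact h

lemma Gb_mem_ev {P : HeightOneSpectrum (𝓞 L) → Prop} {c : SC L} :
    c ∈ Gb_ev P ↔ ∀ w, P w → eo w c = 0 := Iff.rfl

lemma Gb_fin {M M' : Type} [Field M] [NumberField M] [Field M'] [NumberField M'] [Algebra M M']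
    {A : Set (HeightOneSpectrum (𝓞 M))} (hA : A.Finite) :
    {w : HeightOneSpectrum (𝓞 M') | dn M w ∈ A}.Finite := by
  have h1 : {w : HeightOneSpectrum (𝓞 M') | dn M w ∈ A} =
      ⋃ v ∈ A, {w : HeightOneSpectrum (𝓞 M') | dn M w = v} := by
    ext w
    simp
  rw [h1]
  exact hA.biUnion fun v _ => H76PP.fin_above v

theorem exists_YG (S : Ext K F L a b θ) {D : K} (hD : D ≠ 0)
    (Sg T : Finset (HeightOneSpectrum (𝓞 K))) :
    ∃ W : AddSubgroup (SC L), Finite W ∧ ∀ c, c ∈ W ↔ S.Y D Sg T c := by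
  choose Wv hWv using fun v => Gb_Wv S hD v
  choose Ws hWs using fun s => Gb_Ws S hD s
  obtain ⟨W, hW⟩ : ∃ W : AddSubgroup (SC L), W = H30ZO.HH F L ⊓
      ((⨅ v : {v : HeightOneSpectrum (𝓞 F) // dn K v ∈ Sg}, Wv v) ⊓ ((⨅ s, Ws s) ⊓
        Gb_ev fun w => dn K (dn F w) ∉ Sg ∧ dn K (dn F w) ∉ T)) := ⟨_, rfl⟩
  have hm : ∀ c, c ∈ W ↔ S.Y D Sg T c := by
    intro c
    rw [hW, AddSubgroup.mem_inf, AddSubgroup.mem_inf, AddSubgroup.mem_inf, AddSubgroup.mem_iInf,
      AddSubgroup.mem_iInf, Gb_mem_ev]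
    constructor
    · rintro ⟨h1, h2, h3, h4⟩
      exact ⟨h1, fun v hv => ((hWv v c).1 (h2 ⟨v, hv⟩)).2, fun s => ((hWs s c).1 (h3 s)).2,
        fun w h h' => h4 w ⟨h, h'⟩⟩
    · rintro ⟨h1, h2, h3, h4⟩
      exact ⟨h1, fun v => (hWv v c).2 ⟨h1, h2 v v.2⟩, fun s => (hWs s c).2 ⟨h1, h3 s⟩,
        fun w h => h4 w h.1 h.2⟩
  refine ⟨W, ?_, hm⟩
  have h1 : {v : HeightOneSpectrum (𝓞 F) | dn K v ∈ ((Sg ∪ T : Finset _) : Set _)}.Finite :=
    Gb_fin (Finset.finite_toSet _)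
  have h2 := Gb_fin (M' := L) h1
  have h3 := (H24TD.fin_US h2).subset (fun c (hc : c ∈ (W : Set (SC L))) w hw => by
    have h4 := ((hm c).1 hc).ev w
    have h5 : ¬ (dn K (dn F w) ∈ Sg ∨ dn K (dn F w) ∈ T) := by
      intro h
      exact hw (by
        change dn K (dn F w) ∈ ((Sg ∪ T : Finset _) : Set _)
        rw [Finset.mem_coe, Finset.mem_union]
        exact h)
    exact h4 (fun h => h5 (Or.inl h)) (fun h => h5 (Or.inr h)))
  exact h3.to_subtype

lemma Gb_val {v : HeightOneSpectrum (𝓞 F)} {x : K} (h : (dn K v).valuation K x ≤ 1) :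
    v.valuation F (algebraMap K F x) ≤ 1 := by
  have h1 := H76PP.val_exp_le (w := v) (x := x) (m := 0) le_rfl (by
    rw [neg_zero, exp_zero]
    exact h)
  rwa [neg_zero, exp_zero] at h1

lemma Gb_good (S : Ext K F L a b θ) {D : K} {Sg : Finset (HeightOneSpectrum (𝓞 K))}
    (hok : S.Ok D Sg) {v : HeightOneSpectrum (𝓞 F)} (hv : dn K v ∉ Sg) {c : SC L}
    (hc : c ∈ H30ZO.HH F L) :
    S.Lv D v c ↔ ∀ w : HeightOneSpectrum (𝓞 L), dn F w = v → eo w c = 0 := by
  have h := H76OD.Wc_good S.cub v (E := algebraMap K F D) (Gb_val (S.ha _)) (Gb_val (S.hb _)) (by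
      have h2 := H76PP.val_one (w := v) (hok.two _ hv)
      rwa [map_ofNat] at h2) (by
      have h2 := H76PP.val_one (w := v) (hok.dis _ hv)
      simpa only [map_add, map_mul, map_pow, map_ofNat] using h2)
    (H76PP.val_one (hok.val _ hv)) hc
  unfold Ext.Lv
  rw [map_mul (algebraMap K F) (D ^ 2) a, map_mul (algebraMap K F) (D ^ 3) b, map_pow, map_pow]
  exact h

theorem V_iff_Y (S : Ext K F L a b θ) {D : K} {Sg : Finset (HeightOneSpectrum (𝓞 K))}
    (hok : S.Ok D Sg) {c : SC L} : S.V D c ↔ S.Y D Sg ∅ c := by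
  constructor
  · rintro ⟨h1, h2, h3⟩
    exact ⟨h1, fun v _ => h2 v, h3, fun w hw _ => (Gb_good S hok hw h1).1 (h2 _) w rfl⟩
  · rintro ⟨h1, h2, h3, h4⟩
    refine ⟨h1, fun v => ?_, h3⟩
    by_cases hv : dn K v ∈ Sg
    · exact h2 v hv
    · refine (Gb_good S hok hv h1).2 fun w hw => h4 w ?_ (Finset.notMem_empty _)
      rw [hw]
      exact hv

theorem Y_of_triv (S : Ext K F L a b θ) {D : K} (hD : D ≠ 0)
    {Sg T : Finset (HeightOneSpectrum (𝓞 K))} {c : SC L} (hc : c ∈ H30ZO.HH F L)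
    (ht : S.Triv Sg c)
    (he : ∀ w : HeightOneSpectrum (𝓞 L), dn K (dn F w) ∉ Sg → dn K (dn F w) ∉ T → eo w c = 0) :
    S.Y D Sg T c := by
  refine ⟨hc, fun v hv => ?_, fun s => ?_, he⟩
  · have h := H76OD.Wc_sq S.cub v (E := algebraMap K F D) (Gb_val (S.ha _)) (Gb_val (S.hb _))
      (Gb_dF S) ((map_ne_zero _).2 hD) (c := c) (H30ZO.mem_Sqv.2 fun w hw => ht.fin w (by
        rw [hw]
        exact hv))
    unfold Ext.Lv
    rw [map_mul (algebraMap K F) (D ^ 2) a, map_mul (algebraMap K F) (D ^ 3) b, map_pow, map_pow]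
    exact h
  · have h := H76OD.Wc_pos_tw S.cub s (Gb_dF S) (E := algebraMap K F D) ((map_ne_zero _).2 hD)
      (c := c) (fun t _ => ht.inf t)
    unfold Ext.Lr
    rw [map_mul (algebraMap K F) (D ^ 2) a, map_mul (algebraMap K F) (D ^ 3) b, map_pow, map_pow]
    exact h

/-- The finiteness of the Selmer group. -/
theorem fin_V (S : Ext K F L a b θ) {D : K} (hD : D ≠ 0) : {c : SC L | S.V D c}.Finite := by
  have f2 := H38RT.fin_bad (K := K) (x := 2) two_ne_zero
  have fd := H38RT.fin_bad S.dne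
  have fD := H38RT.fin_bad hD
  obtain ⟨Sg, hSg⟩ : ∃ Sg : Finset (HeightOneSpectrum (𝓞 K)),
      Sg = f2.toFinset ∪ (fd.toFinset ∪ fD.toFinset) := ⟨_, rfl⟩
  have hn : ∀ v : HeightOneSpectrum (𝓞 K), v ∉ Sg → v.valuation K 2 = 1 ∧
      v.valuation K (4 * a ^ 3 + 27 * b ^ 2) = 1 ∧ v.valuation K D = 1 := by
    intro v hv
    rw [hSg, Finset.mem_union, Finset.mem_union, Set.Finite.mem_toFinset, Set.Finite.mem_toFinset,
      Set.Finite.mem_toFinset, Set.mem_ofPred_eq, Set.mem_ofPred_eq, Set.mem_ofPred_eq] at hv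
    push Not at hv
    exact hv
  have hok : S.Ok D Sg :=
    ⟨hD, fun v hv => (hn v hv).1, fun v hv => (hn v hv).2.1, fun v hv => (hn v hv).2.2⟩
  obtain ⟨W, hW, hm⟩ := exists_YG S hD Sg ∅
  have h1 : (W : Set (SC L)).Finite := Set.toFinite _
  refine h1.subset fun c hc => ?_
  exact (hm c).2 ((V_iff_Y S hok).1 hc)

end H88GX
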