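import Pool.Agent.H88.GX.Df
import Pool.Agent.H88.OD.Ex

/-!
MP_78d38b_GN: existence of the cubic extension (no row).
-/

set_option autoImplicit false
set_option linter.unusedSectionVars false
open scoped Classical

open WithZero NumberField IsDedekindDomain H38RT
open H38T1 (SC sc scu rep eo la si OddP)
open H76PP (Cub LC ev scm dn)

namespace H88GX

export H88OD (Ex_fd Ex_range Ex_disc Ex_ext Ex_phi Ex_phi_F Ex_phi_theta Ex_phi_mul Ex_phi_one Ex_aut)

theorem noroot {K F : Type} [Field K] [NumberField K] [Field F] [NumberField F] [Algebra K F]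
    [IsGalois K F] {a b : K}
    (hir : ∀ t : K, t ^ 3 + a * t + b ≠ 0)
    (hsq : ¬ IsSquare (algebraMap K F (-(4 * a ^ 3 + 27 * b ^ 2)))) (t : F) :
    t ^ 3 + algebraMap K F a * t + algebraMap K F b ≠ 0 := by
  intro ht
  have _ : FiniteDimensional K F := H88OD.Ex_fd K F
  have hint : IsIntegral K t := Algebra.IsIntegral.isIntegral t
  have hf3 : (Polynomial.X ^ 3 + Polynomial.C a * Polynomial.X + Polynomial.C b : Polynomial K).natDegree = 3 := by
    compute_degree!
  have hfm : (Polynomial.X ^ 3 + Polynomial.C a * Polynomial.X + Polynomial.C b : Polynomial K).Monic := by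
    monicity!
  set f : Polynomial K := Polynomial.X ^ 3 + Polynomial.C a * Polynomial.X + Polynomial.C b with hf
  have h1 : (Polynomial.aeval t) f = 0 := by
    rw [hf]
    simp only [map_add, map_mul, map_pow, Polynomial.aeval_X, Polynomial.aeval_C]
    exact ht
  have hirr : Irreducible f := by
    rw [hfm.irreducible_iff_roots_eq_zero_of_degree_le_three (by rw [hf3]; norm_num)
      (by rw [hf3])]
    rw [Multiset.eq_zero_iff_forall_notMem]
    intro z hz
    rw [Polynomial.mem_roots hfm.ne_zero, Polynomial.IsRoot.def] at hz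
    apply hir z
    rw [hf] at hz
    simpa only [Polynomial.eval_add, Polynomial.eval_mul, Polynomial.eval_pow, Polynomial.eval_X,
      Polynomial.eval_C] using hz
  have heq : minpoly K t = f := (minpoly.eq_of_irreducible_of_monic hirr h1 hfm).symm
  have hsp : ((minpoly K t).map (algebraMap K F)).Splits := Normal.splits inferInstance t
  rw [heq] at hsp
  have hfF : (f.map (algebraMap K F)).natDegree = 3 := by
    rw [hfm.natDegree_map, hf3]
  have hcard : (f.map (algebraMap K F)).roots.card = 3 := by
    rw [← hsp.natDegree_eq_card_roots, hfF]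
  obtain ⟨r, s, u, hrs⟩ := Multiset.card_eq_three.mp hcard
  have hev : ∀ x : F, x ^ 3 + algebraMap K F a * x + algebraMap K F b = (x - r) * (x - s) * (x - u) := by
    intro x
    have h := hsp.eval_eq_prod_roots_of_monic (hfm.map _) x
    rw [hrs, hf] at h
    simp only [Polynomial.map_add, Polynomial.map_mul, Polynomial.map_pow, Polynomial.map_X, Polynomial.map_C,
      Polynomial.eval_add, Polynomial.eval_mul, Polynomial.eval_pow, Polynomial.eval_X, Polynomial.eval_C] at h
    rw [h]
    simp [mul_assoc]
  have e0 := hev 0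
  have e1 := hev 1
  have e2 := hev (-1)
  have hs1 : r + s + u = 0 := by
    have : (2 : F) * (r + s + u) = 0 := by linear_combination e1 + e2 - 2 * e0
    simpa using this
  have hs2 : r * s + r * u + s * u = algebraMap K F a := by
    have : (2 : F) * (r * s + r * u + s * u - algebraMap K F a) = 0 := by linear_combination e2 - e1
    have h := (mul_eq_zero.mp this).resolve_left two_ne_zero
    linear_combination h
  have hs3 : r * s * u = -algebraMap K F b := by linear_combination e0
  have hdisc := H88OD.Ex_disc hs1 hs2 hs3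
  refine hsq ⟨(r - s) * (r - u) * (s - u), ?_⟩
  rw [← hdisc]
  simp only [map_neg, map_add, map_mul, map_pow, map_ofNat]

theorem exists_ext {K F : Type} [Field K] [NumberField K] [Field F] [NumberField F] [Algebra K F]
    [hgal : IsGalois K F] {a b : K}
    (ha : ∀ v : HeightOneSpectrum (𝓞 K), v.valuation K a ≤ 1)
    (hb : ∀ v : HeightOneSpectrum (𝓞 K), v.valuation K b ≤ 1)
    (hD : 4 * a ^ 3 + 27 * b ^ 2 ≠ 0) (hir : ∀ t : K, t ^ 3 + a * t + b ≠ 0)
    (hsq : ¬ IsSquare (algebraMap K F (-(4 * a ^ 3 + 27 * b ^ 2)))) :
    ∃ (L : Type) (_ : Field L) (_ : NumberField L) (_ : Algebra F L) (θ : L),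
      Nonempty (Ext K F L a b θ) := by
  obtain ⟨L, i1, i2, i3, θ, hc⟩ := H24PD.exists_cub (K := F) (noroot hir hsq)
  refine ⟨L, i1, i2, i3, θ, ⟨?_⟩⟩
  exact
    { cub := hc
      gal := hgal
      ha := ha
      hb := hb
      dne := hD
      dsq := hsq
      ρ :=
        { toFun := fun g => H88OD.Ex_aut hc g
          map_one' := by
            ext y
            exact H88OD.Ex_phi_one hc y
          map_mul' := fun g h => by
            ext y
            exact H88OD.Ex_phi_mul hc g h y }
      ρF := fun g x => H88OD.Ex_phi_F hc g x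
      ρθ := fun g => H88OD.Ex_phi_theta hc g }

end H88GX
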