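import Pool.Agent.H88.OD.Df

/-!
Definitions for the project MP_78d38b_GN (no row): the setting of `Pool/Agent/H88/OD/Df.lean` for an arbitrary finite
Galois extension `F / K`; the discriminant is not a square in `F`.
-/

set_option autoImplicit false
set_option linter.unusedSectionVars false
open scoped Classical

open WithZero NumberField IsDedekindDomain H38RT
open H38T1 (SC sc scu rep eo la si OddP)
open H76PP (Cub LC ev scm dn)
open H76MQ (TwT)
open H30ZO (Wc)

namespace H88GX

export H88OD (RG rg_ext rg_two st st_single coeff_st st_st st_one st_inj st_mul coeff_single_mul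
  coeff_mul_single mk coeff_mk e0 coeff_mul ell ell_add ell_smul Ray)

/-- The setting. -/
structure Ext (K F L : Type) [Field K] [NumberField K] [Field F] [NumberField F] [Field L]
    [NumberField L] [Algebra K F] [Algebra F L] (a b : K) (θ : L) where
  cub : Cub F L (algebraMap K F a) (algebraMap K F b) θ
  gal : IsGalois K F
  ha : ∀ v : HeightOneSpectrum (𝓞 K), v.valuation K a ≤ 1
  hb : ∀ v : HeightOneSpectrum (𝓞 K), v.valuation K b ≤ 1
  dne : 4 * a ^ 3 + 27 * b ^ 2 ≠ 0
  dsq : ¬ IsSquare (algebraMap K F (-(4 * a ^ 3 + 27 * b ^ 2)))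
  ρ : (F ≃ₐ[K] F) →* (L ≃ₐ[ℚ] L)
  ρF : ∀ (g : F ≃ₐ[K] F) (x : F), ρ g (algebraMap F L x) = algebraMap F L (g x)
  ρθ : ∀ g : F ≃ₐ[K] F, ρ g θ = θ

section Main

variable {K F L : Type} [Field K] [NumberField K] [Field F] [NumberField F] [Field L]
  [NumberField L] [Algebra K F] [Algebra F L] {a b : K} {θ : L}

/-- The local condition of the twist `E_D : y^2 = x^3 + D^2 a x + D^3 b` at the place `v` of `F`. -/
def Ext.Lv (_S : Ext K F L a b θ) (D : K) (v : HeightOneSpectrum (𝓞 F)) (c : SC L) : Prop :=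
  Wc (algebraMap F (v.adicCompletion F)) (algebraMap K F (D ^ 2 * a)) (algebraMap K F (D ^ 3 * b))
    (algebraMap F L (algebraMap K F D) * θ) c

/-- The local condition of `E_D` at the real place `s` of `F`. -/
def Ext.Lr (_S : Ext K F L a b θ) (D : K) (s : F →+* ℝ) (c : SC L) : Prop :=
  Wc s (algebraMap K F (D ^ 2 * a)) (algebraMap K F (D ^ 3 * b))
    (algebraMap F L (algebraMap K F D) * θ) c

/-- The two-Selmer group of `E_D` over `F`. -/
structure Ext.V (S : Ext K F L a b θ) (D : K) (c : SC L) : Prop where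
  hh : c ∈ H30ZO.HH F L
  fin : ∀ v : HeightOneSpectrum (𝓞 F), S.Lv D v c
  inf : ∀ s : F →+* ℝ, S.Lr D s c

/-- The relaxed group: the local conditions of `E_D` at the places above `Sg` and the real places, even outside
`Sg` and `T`. -/
structure Ext.Y (S : Ext K F L a b θ) (D : K) (Sg T : Finset (HeightOneSpectrum (𝓞 K)))
    (c : SC L) : Prop where
  hh : c ∈ H30ZO.HH F L
  fin : ∀ v : HeightOneSpectrum (𝓞 F), dn K v ∈ Sg → S.Lv D v c
  inf : ∀ s : F →+* ℝ, S.Lr D s c
  ev : ∀ w : HeightOneSpectrum (𝓞 L), dn K (dn F w) ∉ Sg → dn K (dn F w) ∉ T → eo w c = 0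

/-- The finite set `Sg` of primes of `K` contains all bad primes of `E_D`. -/
structure Ext.Ok (_S : Ext K F L a b θ) (D : K) (Sg : Finset (HeightOneSpectrum (𝓞 K))) : Prop where
  ne : D ≠ 0
  two : ∀ v : HeightOneSpectrum (𝓞 K), v ∉ Sg → v.valuation K 2 = 1
  dis : ∀ v : HeightOneSpectrum (𝓞 K), v ∉ Sg → v.valuation K (4 * a ^ 3 + 27 * b ^ 2) = 1
  val : ∀ v : HeightOneSpectrum (𝓞 K), v ∉ Sg → v.valuation K D = 1

/-- The class is a square at all places of `L` above `Sg` and positive at the real places of `L`. -/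
structure Ext.Triv (_S : Ext K F L a b θ) (Sg : Finset (HeightOneSpectrum (𝓞 K))) (c : SC L) :
    Prop where
  fin : ∀ w : HeightOneSpectrum (𝓞 L), dn K (dn F w) ∈ Sg → c ∈ H30ZO.Sq w
  inf : ∀ s : L →+* ℝ, si s c = 0

/-- A special prime of `K` outside `Sg`, given by a place `v` of `F` with trivial decomposition group and two places
`t1`, `t2` of `L` above `v`, of degree one and two. -/
structure Sp (S : Ext K F L a b θ) (Sg : Finset (HeightOneSpectrum (𝓞 K))) where
  v : HeightOneSpectrum (𝓞 F)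
  t1 : HeightOneSpectrum (𝓞 L)
  t2 : HeightOneSpectrum (𝓞 L)
  out : dn K v ∉ Sg
  tw : TwT F (algebraMap K F a) θ v t1 t2
  fr : ∀ g : F ≃ₐ[K] F, S.ρ g • t2 = t2 → g = 1

variable {S : Ext K F L a b θ} {Sg : Finset (HeightOneSpectrum (𝓞 K))}

/-- The prime of `K`. -/
noncomputable def Sp.q (P : Sp S Sg) : HeightOneSpectrum (𝓞 K) := dn K P.v

/-- The constant at `t1`. -/
noncomputable def Sp.nu (P : Sp S Sg) : ZMod 2 :=
  la P.t1 (sc (3 * θ ^ 2 + algebraMap F L (algebraMap K F a)))

/-- The valuations at the places above `q` (of degree two), as an element of the group algebra. -/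
noncomputable def Sp.tr (P : Sp S Sg) (c : SC L) : RG (F ≃ₐ[K] F) :=
  H88OD.mk fun g => eo P.t2 (S.ρ g⁻¹ • c)

/-- The other coordinate: it vanishes on the local conditions of the twists ramified at `q`. -/
noncomputable def Sp.fl (P : Sp S Sg) (c : SC L) : RG (F ≃ₐ[K] F) :=
  H88OD.mk fun g => la P.t1 (S.ρ g⁻¹ • c) + P.nu * eo P.t2 (S.ρ g⁻¹ • c)

/-- The element of the group algebra attached to a functional on the square classes. -/
noncomputable def Ext.el (S : Ext K F L a b θ) (φ : SC L →+ ZMod 2) (c : SC L) : RG (F ≃ₐ[K] F) :=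
  H88OD.mk fun g => φ (S.ρ g⁻¹ • c)

end Main

end H88GX
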