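import Pool.Agent.H88.OD.Ga
import Pool.Agent.H88.GX.Df
import Pool.Agent.H38.T1.Eb

/-!
ROW Ga (project MP_78d38b_GN, about 250 lines): the action of `G` on the places and the local conditions.

`gq g : F ≃ₐ[ℚ] F` is `g` as an automorphism over `ℚ`; `F ≃ₐ[ℚ] F` acts on the places of `F` and `L ≃ₐ[ℚ] L` on the places of `L` (Pool/Agent/H38/T1/Df.lean: mem_mv; Eb.lean: val_smul: `(γ • v).valuation (γ x) = v.valuation x`).
norm_ρ: `S.ρ g` is `g`-semilinear, so `N_{L/F} (S.ρ g x) = g (N_{L/F} x)`: in the basis `1, θ, θ^2` the matrix of multiplication by `S.ρ g x` is the image under `g` of that of `x` (`Cub.norm` in Pool/Agent/H76/PP/E0.lean gives the norm as a polynomial in the coordinates `co i x` and `a, b`, which are fixed by `g`; `co i (S.ρ g x) = g (co i x)` from `S.ρF, S.ρθ`).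
HH_smul: from norm_ρ, `H38T1.smul_sc`, `H30ZO.mem_HH`.
dn_smul: for `x ∈ 𝓞 F`: `x ∈ dn F (S.ρ g • w)` iff `S.ρ g⁻¹ x ∈ w` iff `g⁻¹ x ∈ dn F w` iff `x ∈ gq g • dn F w` (mem_mv, gO). dn_gq: for `x ∈ 𝓞 K`, `g⁻¹ x = x`.
Lv_smul: `g` induces an isomorphism of the completions `F_v ≃ F_(g v)` compatible with `g` (extension by continuity; Pool/Agent/H10/StarGal.lean exists_conj and Pool/Agent/H73/P2/Cm.lean have the transport of completions along an automorphism; or `Valued`/`HeightOneSpectrum.adicCompletion` functoriality; grep `adicCompletion` with `RingEquiv`). `Wc` over `F_v` for the element `ev θ' d` (`θ' = D θ`)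
gives `Wc` over `F_(g v)` for `ev θ' (g ∘ d) = S.ρ g (ev θ' d)`: `LC` is transported by the ring isomorphism `ψ : F_v → F_(g v)` with `ψ (x) = g x` for `x ∈ F` (`D^2 a`, `D^3 b` are fixed by `g`). The converse by applying this to `g⁻¹`. Lr_smul: the same with `s' = s.comp g⁻¹`.
-/

set_option autoImplicit false
set_option linter.unusedSectionVars false
open scoped Classical

open WithZero NumberField IsDedekindDomain H38RT
open H38T1 (SC sc scu rep eo la si OddP)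
open H76PP (Cub LC ev scm dn)
open H30ZO (Wc)

namespace H88GX

variable {K F L : Type} [Field K] [NumberField K] [Field F] [NumberField F] [Field L]
  [NumberField L] [Algebra K F] [Algebra F L] {a b : K} {θ : L}

export H88OD (gq gq_apply)

theorem ρ_inv (S : Ext K F L a b θ) (g : F ≃ₐ[K] F) : S.ρ g⁻¹ = (S.ρ g)⁻¹ := map_inv S.ρ g

lemma Ga_co (S : Ext K F L a b θ) (g : F ≃ₐ[K] F) (x : L) (i : Fin 3) :
    S.cub.co i (S.ρ g x) = g (S.cub.co i x) := by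
  have h := S.cub.eq_co x
  have h2 : S.ρ g x = algebraMap F L (g (S.cub.co 0 x)) + algebraMap F L (g (S.cub.co 1 x)) * θ +
      algebraMap F L (g (S.cub.co 2 x)) * θ ^ 2 := by
    conv_lhs => rw [h]
    rw [map_add, map_add, map_mul, map_mul, map_pow, S.ρθ, S.ρF, S.ρF, S.ρF]
  rw [h2]
  exact S.cub.co_mk (fun i => g (S.cub.co i x)) i

lemma Ga_ev (S : Ext K F L a b θ) (g : F ≃ₐ[K] F) (D : K) (d : Fin 3 → F) :
    S.ρ g (ev (algebraMap F L (algebraMap K F D) * θ) d) =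
      ev (algebraMap F L (algebraMap K F D) * θ) (fun i => g (d i)) := by
  have h1 : S.ρ g (algebraMap F L (algebraMap K F D) * θ) =
      algebraMap F L (algebraMap K F D) * θ := by
    rw [map_mul, S.ρθ, S.ρF, g.commutes]
  unfold ev
  rw [map_add, map_add, map_mul (S.ρ g) (algebraMap F L (d 1)),
    map_mul (S.ρ g) (algebraMap F L (d 2)), map_pow, h1, S.ρF, S.ρF, S.ρF]

lemma Ga_inv (S : Ext K F L a b θ) (g : F ≃ₐ[K] F) (x : F) :
    (S.ρ g)⁻¹ (algebraMap F L x) = algebraMap F L (g⁻¹ x) := by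
  rw [← ρ_inv, S.ρF]

theorem norm_ρ (S : Ext K F L a b θ) (g : F ≃ₐ[K] F) (x : L) :
    Algebra.norm F (S.ρ g x) = g (Algebra.norm F x) := by
  have ha : g (algebraMap K F a) = algebraMap K F a := g.commutes a
  have hb : g (algebraMap K F b) = algebraMap K F b := g.commutes b
  rw [S.cub.norm, S.cub.norm, Matrix.det_fin_three, Matrix.det_fin_three]
  simp only [Ga_co, Matrix.of_apply, Matrix.cons_val', Matrix.cons_val_zero,
    Matrix.cons_val_one, Matrix.cons_val, map_sub, map_add, map_mul, map_neg, ha, hb]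

theorem HH_smul (S : Ext K F L a b θ) (g : F ≃ₐ[K] F) {c : SC L} (hc : c ∈ H30ZO.HH F L) :
    S.ρ g • c ∈ H30ZO.HH F L := by
  obtain ⟨x, hx, rfl⟩ := H38T1.sc_surj c
  rw [H38T1.smul_sc _ hx, H30ZO.mem_HH (H38T1.Eb_ne _ hx), norm_ρ]
  rw [H30ZO.mem_HH hx] at hc
  exact hc.map g

theorem dn_smul (S : Ext K F L a b θ) (g : F ≃ₐ[K] F) (w : HeightOneSpectrum (𝓞 L)) :
    dn F (S.ρ g • w) = gq g • dn F w := by
  apply HeightOneSpectrum.ext
  ext x
  change H38T1.gO (S.ρ g)⁻¹ (algebraMap (𝓞 F) (𝓞 L) x) ∈ w.asIdeal ↔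
    algebraMap (𝓞 F) (𝓞 L) (H38T1.gO (gq g)⁻¹ x) ∈ w.asIdeal
  have h : H38T1.gO (S.ρ g)⁻¹ (algebraMap (𝓞 F) (𝓞 L) x) =
      algebraMap (𝓞 F) (𝓞 L) (H38T1.gO (gq g)⁻¹ x) := by
    apply RingOfIntegers.ext
    rw [H38T1.gO_coe]
    exact Ga_inv S g (x : F)
  rw [h]

theorem dn_gq (g : F ≃ₐ[K] F) (v : HeightOneSpectrum (𝓞 F)) : dn K (gq g • v) = dn K v := by
  apply HeightOneSpectrum.ext
  ext x
  change H38T1.gO (gq g)⁻¹ (algebraMap (𝓞 K) (𝓞 F) x) ∈ v.asIdeal ↔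
    algebraMap (𝓞 K) (𝓞 F) x ∈ v.asIdeal
  have h : H38T1.gO (gq g)⁻¹ (algebraMap (𝓞 K) (𝓞 F) x) = algebraMap (𝓞 K) (𝓞 F) x := by
    apply RingOfIntegers.ext
    rw [H38T1.gO_coe]
    exact (g⁻¹).commutes (x : K)
  rw [h]

lemma Ga_LC {E E' : Type} [Field E] [Field E'] {i : F →+* E} {i' : F →+* E'} (ψ : E →+* E')
    (g : F ≃ₐ[K] F) (h : ∀ x : F, ψ (i x) = i' (g x)) {A B : F} (hA : g A = A) (hB : g B = B)
    {d : Fin 3 → F} (hd : LC i A B d) : LC i' A B fun j => g (d j) := by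
  obtain ⟨x, y, z, hy, hxy, hm⟩ := hd
  have eA : ψ (i A) = i' A := by rw [h, hA]
  have eB : ψ (i B) = i' B := by rw [h, hB]
  refine ⟨ψ x, ψ y, fun j => ψ (z j), ?_, ?_, ?_⟩
  · rw [Ne, map_eq_zero]
    exact hy
  · rw [← eA, ← eB, ← map_pow, hxy, map_add, map_add, map_mul, map_pow]
  · have e1 : (fun j => ψ ((![x, -1, 0] : Fin 3 → E) j)) = ![ψ x, -1, 0] := by
      funext j
      fin_cases j <;> simp
    have e2 : (fun j => i' (g (d j))) = fun j => ψ (i (d j)) := by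
      funext j
      rw [h]
    funext j
    have h1 := H76PP.Te_m3_map ψ (i A) (i B) (fun j => i (d j)) ![x, -1, 0] j
    have h2 := H76PP.Te_m3_map ψ (i A) (i B) z z j
    rw [e1, eA, eB] at h1
    rw [eA, eB] at h2
    rw [e2, h1, h2, hm]

lemma Ga_Wc (S : Ext K F L a b θ) (D : K) {E E' : Type} [Field E] [Field E'] {i : F →+* E}
    {i' : F →+* E'} (ψ : E →+* E') (g : F ≃ₐ[K] F) (h : ∀ x : F, ψ (i x) = i' (g x)) {c : SC L}
    (hc : Wc i (algebraMap K F (D ^ 2 * a)) (algebraMap K F (D ^ 3 * b))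
      (algebraMap F L (algebraMap K F D) * θ) c) :
    Wc i' (algebraMap K F (D ^ 2 * a)) (algebraMap K F (D ^ 3 * b))
      (algebraMap F L (algebraMap K F D) * θ) (S.ρ g • c) := by
  obtain ⟨d, hd, rfl, hL⟩ := hc
  refine ⟨fun j => g (d j), ?_, ?_, Ga_LC ψ g h (g.commutes _) (g.commutes _) hL⟩
  · rw [← Ga_ev S g D d]
    exact H38T1.Eb_ne _ hd
  · rw [← Ga_ev S g D d, H38T1.smul_sc _ hd]

lemma Ga_nhds (g : F ≃ₐ[K] F) (v : HeightOneSpectrum (𝓞 F)) :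
    ∀ U ∈ nhds (0 : (gq g • v).adicCompletion F), ∃ k : ℕ, ∀ x : F,
      v.valuation F x ≤ exp (-(k : ℤ)) →
        ((algebraMap F ((gq g • v).adicCompletion F)).comp ((g : F ≃ₐ[K] F) : F →+* F)) x ∈ U := by
  intro U hU
  rw [Valued.mem_nhds_zero] at hU
  obtain ⟨γ, hγ⟩ := hU
  obtain ⟨n, hn⟩ := exists_exp_neg_natCast_lt
    (x := MonoidWithZeroHom.ValueGroup₀.embedding γ.1) (by simp)
  refine ⟨n, fun x hx => hγ ?_⟩
  change Valued.v.restrict _ < γ.1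
  rw [Valuation.restrict_lt_iff_lt_embedding]
  refine lt_of_le_of_lt ?_ hn
  have h2 := (gq g • v).valuedAdicCompletion_eq_valuation' (K := F) (g x)
  change Valued.v (algebraMap F ((gq g • v).adicCompletion F) (g x)) = _ at h2
  change Valued.v (algebraMap F ((gq g • v).adicCompletion F) (g x)) ≤ _
  rw [h2]
  have h3 := H38T1.val_smul (gq g) v x
  rw [gq_apply] at h3
  rw [h3]
  exact hx

lemma Ga_psi (g : F ≃ₐ[K] F) (v : HeightOneSpectrum (𝓞 F)) :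
    ∃ ψ : v.adicCompletion F →+* (gq g • v).adicCompletion F,
      ∀ x : F, ψ (algebraMap F (v.adicCompletion F) x) =
        algebraMap F ((gq g • v).adicCompletion F) (g x) :=
  ⟨Pool.Agent.H10.adicLift v _ (Pool.Agent.H10.continuous_fromVal v _ (Ga_nhds g v)),
    fun x => Pool.Agent.H10.adicLift_algebraMap v _ _ x⟩

lemma Ga_Lv (S : Ext K F L a b θ) (D : K) (g : F ≃ₐ[K] F) (v : HeightOneSpectrum (𝓞 F))
    (c : SC L) (h : S.Lv D v c) : S.Lv D (gq g • v) (S.ρ g • c) := by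
  obtain ⟨ψ, hψ⟩ := Ga_psi g v
  exact Ga_Wc S D ψ g hψ h

lemma Ga_gq_inv (g : F ≃ₐ[K] F) : gq g⁻¹ = (gq g)⁻¹ := rfl

lemma Ga_inv_smul (S : Ext K F L a b θ) (g : F ≃ₐ[K] F) (c : SC L) : S.ρ g⁻¹ • S.ρ g • c = c := by
  rw [ρ_inv, inv_smul_smul]

theorem Lv_smul (S : Ext K F L a b θ) (D : K) (g : F ≃ₐ[K] F) (v : HeightOneSpectrum (𝓞 F))
    (c : SC L) : S.Lv D (gq g • v) (S.ρ g • c) ↔ S.Lv D v c := by
  refine ⟨fun h => ?_, Ga_Lv S D g v c⟩
  have h1 := Ga_Lv S D g⁻¹ _ _ h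
  rwa [Ga_inv_smul, Ga_gq_inv, inv_smul_smul] at h1

theorem Lr_smul (S : Ext K F L a b θ) (D : K) (g : F ≃ₐ[K] F) (s : F →+* ℝ)
    (c : SC L) : S.Lr D (s.comp ((g⁻¹ : F ≃ₐ[K] F) : F →+* F)) (S.ρ g • c) ↔ S.Lr D s c := by
  constructor
  · intro h
    have h1 := Ga_Wc S D (i' := s) (RingHom.id ℝ) g⁻¹ (fun x => rfl) h
    rwa [Ga_inv_smul] at h1
  · intro h
    refine Ga_Wc S D (RingHom.id ℝ) g (fun x => ?_) h
    change s x = s (g⁻¹ (g x))
    exact congrArg s (g.symm_apply_apply x).symm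

lemma Ga_Lr (S : Ext K F L a b θ) {D : K} (g : F ≃ₐ[K] F) (s : F →+* ℝ) {c : SC L}
    (h : S.Lr D (s.comp ((g : F ≃ₐ[K] F) : F →+* F)) c) : S.Lr D s (S.ρ g • c) :=
  Ga_Wc S D (i' := s) (RingHom.id ℝ) g (fun _ => rfl) h

theorem V_smul (S : Ext K F L a b θ) {D : K} (g : F ≃ₐ[K] F) {c : SC L} (hc : S.V D c) :
    S.V D (S.ρ g • c) := by
  refine ⟨HH_smul S g hc.hh, fun v => ?_, fun s => ?_⟩
  · have h1 := (Lv_smul S D g ((gq g)⁻¹ • v) c).2 (hc.fin _)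
    rwa [smul_inv_smul] at h1
  · exact Ga_Lr S g s (hc.inf _)

theorem Y_smul (S : Ext K F L a b θ) {D : K} {Sg T : Finset (HeightOneSpectrum (𝓞 K))}
    (g : F ≃ₐ[K] F) {c : SC L} (hc : S.Y D Sg T c) : S.Y D Sg T (S.ρ g • c) := by
  refine ⟨HH_smul S g hc.hh, fun v hv => ?_, fun s => Ga_Lr S g s (hc.inf _), fun w h1 h2 => ?_⟩
  · have h0 : gq g • (gq g)⁻¹ • v = v := smul_inv_smul _ _
    have h1 : dn K ((gq g)⁻¹ • v) = dn K v := by
      rw [← dn_gq g ((gq g)⁻¹ • v), h0]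
    have h2 := (Lv_smul S D g ((gq g)⁻¹ • v) c).2 (hc.fin _ (by rwa [h1]))
    rwa [h0] at h2
  · have h0 : S.ρ g • (S.ρ g)⁻¹ • w = w := smul_inv_smul _ _
    have h3 : dn K (dn F w) = dn K (dn F ((S.ρ g)⁻¹ • w)) := by
      rw [← dn_gq g (dn F ((S.ρ g)⁻¹ • w)), ← dn_smul, h0]
    have h4 := H38T1.eo_smul (v := (S.ρ g)⁻¹ • w) (S.ρ g) c
    rw [h0] at h4
    rw [h4]
    rw [h3] at h1 h2
    exact hc.ev _ h1 h2

end H88GX
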