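import Pool.Agent.H88.GX.Ri
import Pool.Agent.H88.GX.Ex

/-!
ROW Nb (MP_78d38b_GN, helper26, about 150 lines): norms in the field `L N`.  `UpN` is in Ri.lean.  Use the tools of Pool/Agent/H88/OD/Ex.lean (`Ex_ext`, `Ex_phi`, `Ex_phi_F`, `Ex_phi_theta`), `Ga_co`/`norm_ρ` of Ga.lean (`Cub.norm`: the norm as a determinant in the coordinates).

norm: `x = c0 + c1 θ + c2 θ^2`, `algebraMap L LN x` has the coordinates `algebraMap F N (c i)` with respect to `1, θN, θN^2` (`θN = algebraMap L LN θ`); both norms are the same polynomial (`Cub.norm`, determinant) in the coordinates and `a, b`.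
inj: `c = sc x`, `N_{L/F} x = t²` (`H30ZO.mem_HH`), `x = y²` in `LN` (`H38T1.sc_eq_zero`, `scm_sc`). Let `n := Algebra.norm N y`; `n² = Algebra.norm N (x) = (algebraMap F N t)²`, so `n = ± algebraMap F N t ≠ 0`. For `g : N ≃ₐ[F] N` let `ĝ := Ex_phi U.cub' g` (with `K := F`, `a := algebraMap K F a`; `U.cub` rewritten by `IsScalarTower.algebraMap_apply`): it fixes the image of `L` (generated by `F` and `θ`), so
`(ĝ y)² = x = y²`, `ĝ y = ± y`; the norm: `Algebra.norm N (ĝ y) = g (Algebra.norm N y) = g (n) = n` (same computation as `norm_ρ` in Ga.lean: coordinates of `ĝ y` are `g` of the coordinates) and `Algebra.norm N (-y) = -n ≠ n`, so `ĝ y = y`. Hence the coordinates of `y` are fixed by all `g` in `Gal(N/F)` (N / F is Galois: `IsGalois.tower_top_of_isGalois K F N`), so they lie in `F` (`IsGalois.mem_range_algebraMap_iff_fixed`), `y = algebraMap L LN y'`, `x = y'²`.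
inj2: if `N_{L/F} x = t²` and `x * Δ = y²` in `LN` with `Δ := -(4a³+27b²) ∈ K`, then `n² = (t²) Δ³` in `N`, `Δ = (n / (t Δ))²` is a square in `N`: contradiction.
-/

set_option autoImplicit false
set_option linter.unusedSectionVars false
open scoped Classical

open WithZero NumberField IsDedekindDomain H38RT
open H38T1 (SC sc scu rep eo la si OddP)
open H76PP (Cub LC ev scm dn)
open H88GX

namespace H26GX

section

variable {K F L : Type} [Field K] [NumberField K] [Field F] [NumberField F] [Field L]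
  [NumberField L] [Algebra K F] [Algebra F L] {a b : K} {θ : L}

variable {S : Ext K F L a b θ} {N LN : Type} [Field N] [NumberField N] [Algebra K N]
    [Algebra F N] [IsScalarTower K F N] [Field LN] [NumberField LN] [Algebra N LN] [Algebra L LN]

private theorem Nb_map (U : UpN S N LN) (c0 c1 c2 : F) :
    algebraMap L LN (algebraMap F L c0 + algebraMap F L c1 * θ + algebraMap F L c2 * θ ^ 2) =
      algebraMap N LN (algebraMap F N c0) + algebraMap N LN (algebraMap F N c1) * algebraMap L LN θ +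
      algebraMap N LN (algebraMap F N c2) * (algebraMap L LN θ) ^ 2 := by
  rw [map_add, map_add, map_mul, map_mul, map_pow, U.tower, U.tower, U.tower]

private theorem Nb_co (U : UpN S N LN) (x : L) (i : Fin 3) :
    U.cub.co i (algebraMap L LN x) = algebraMap F N (S.cub.co i x) := by
  have h2 : algebraMap L LN x = algebraMap N LN (algebraMap F N (S.cub.co 0 x)) +
      algebraMap N LN (algebraMap F N (S.cub.co 1 x)) * algebraMap L LN θ +
      algebraMap N LN (algebraMap F N (S.cub.co 2 x)) * (algebraMap L LN θ) ^ 2 := by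
    conv_lhs => rw [S.cub.eq_co x]
    exact Nb_map U _ _ _
  rw [h2]
  exact U.cub.co_mk (fun i => algebraMap F N (S.cub.co i x)) i

theorem UpN.norm (U : UpN S N LN) (x : L) :
    Algebra.norm N (algebraMap L LN x) = algebraMap F N (Algebra.norm F x) := by
  have ha : algebraMap F N (algebraMap K F a) = algebraMap K N a :=
    (IsScalarTower.algebraMap_apply K F N a).symm
  have hb : algebraMap F N (algebraMap K F b) = algebraMap K N b :=
    (IsScalarTower.algebraMap_apply K F N b).symm
  rw [U.cub.norm, S.cub.norm, Matrix.det_fin_three, Matrix.det_fin_three]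
  simp only [Nb_co U, Matrix.of_apply, Matrix.cons_val', Matrix.cons_val_zero,
    Matrix.cons_val_one, Matrix.cons_val, map_sub, map_add, map_mul, map_neg, ha, hb]

private theorem Nb_cub (U : UpN S N LN) : Cub N LN (algebraMap F N (algebraMap K F a))
    (algebraMap F N (algebraMap K F b)) (algebraMap L LN θ) := by
  rw [← IsScalarTower.algebraMap_apply, ← IsScalarTower.algebraMap_apply]
  exact U.cub

private theorem Nb_fix (U : UpN S N LN) (g : N ≃ₐ[F] N) (x : L) :
    Ex_phi (Nb_cub U) g (algebraMap L LN x) = algebraMap L LN x := by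
  have hF : ∀ z : F, Ex_phi (Nb_cub U) g (algebraMap N LN (algebraMap F N z)) =
      algebraMap N LN (algebraMap F N z) := by
    intro z
    rw [Ex_phi_F, g.commutes]
  obtain ⟨c0, c1, c2, rfl⟩ := S.cub.sp x
  rw [Nb_map U, map_add, map_add, map_mul, map_mul, map_pow, Ex_phi_theta, hF, hF, hF]

private theorem Nb_coe (U : UpN S N LN) (g : N ≃ₐ[F] N) (y : LN) (i : Fin 3) :
    (Nb_cub U).co i (Ex_phi (Nb_cub U) g y) = g ((Nb_cub U).co i y) := by
  have h := (Nb_cub U).eq_co y
  have h2 : Ex_phi (Nb_cub U) g y = algebraMap N LN (g ((Nb_cub U).co 0 y)) +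
      algebraMap N LN (g ((Nb_cub U).co 1 y)) * algebraMap L LN θ +
      algebraMap N LN (g ((Nb_cub U).co 2 y)) * (algebraMap L LN θ) ^ 2 := by
    conv_lhs => rw [h]
    rw [map_add, map_add, map_mul, map_mul, map_pow, Ex_phi_theta, Ex_phi_F, Ex_phi_F, Ex_phi_F]
  rw [h2]
  exact (Nb_cub U).co_mk (fun i => g ((Nb_cub U).co i y)) i

private theorem Nb_norm (U : UpN S N LN) (g : N ≃ₐ[F] N) (y : LN) :
    Algebra.norm N (Ex_phi (Nb_cub U) g y) = g (Algebra.norm N y) := by
  have ha : g (algebraMap F N (algebraMap K F a)) = algebraMap F N (algebraMap K F a) :=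
    g.commutes _
  have hb : g (algebraMap F N (algebraMap K F b)) = algebraMap F N (algebraMap K F b) :=
    g.commutes _
  rw [(Nb_cub U).norm, (Nb_cub U).norm, Matrix.det_fin_three, Matrix.det_fin_three]
  simp only [Nb_coe U, Matrix.of_apply, Matrix.cons_val', Matrix.cons_val_zero,
    Matrix.cons_val_one, Matrix.cons_val, map_sub, map_add, map_mul, map_neg, ha, hb]

private theorem Nb_neg (U : UpN S N LN) (y : LN) :
    Algebra.norm N (-y) = -Algebra.norm N y := by
  have h1 : (-y) = algebraMap N LN (-1) * y := by rw [map_neg, map_one, neg_one_mul]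
  rw [h1, map_mul, Algebra.norm_algebraMap, U.cub.finrank]
  ring

theorem UpN.inj (U : UpN S N LN) [IsGalois K N] {c : SC L} (hc : c ∈ H30ZO.HH F L)
    (h : scm (algebraMap L LN : L →* LN) c = 0) : c = 0 := by
  have hgal : IsGalois F N := IsGalois.tower_top_of_isGalois K F N
  have hfd : FiniteDimensional F N := Ex_fd F N
  have hfd2 : FiniteDimensional N LN := Ex_fd N LN
  obtain ⟨x, hx, rfl⟩ := H38T1.sc_surj c
  rw [H30ZO.mem_HH hx] at hc
  obtain ⟨t, ht⟩ := hc
  have hx' : algebraMap L LN x ≠ 0 := (map_ne_zero _).2 hx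
  rw [H76PP.scm_sc _ hx] at h
  have h1 : IsSquare (algebraMap L LN x) := (H38T1.sc_eq_zero hx').1 h
  obtain ⟨y, hy⟩ := h1
  have hy0 : y ≠ 0 := by
    rintro rfl
    rw [mul_zero] at hy
    exact hx' hy
  have hn : Algebra.norm N y * Algebra.norm N y = algebraMap F N t * algebraMap F N t := by
    rw [← map_mul, ← hy, U.norm, ht, map_mul]
  have hn0 : Algebra.norm N y ≠ 0 := Algebra.norm_ne_zero_iff.2 hy0
  have hfix : ∀ g : N ≃ₐ[F] N, Ex_phi (Nb_cub U) g y = y := by
    intro g
    have h2 : Ex_phi (Nb_cub U) g y * Ex_phi (Nb_cub U) g y = y * y := by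
      rw [← map_mul, ← hy, Nb_fix U]
    rcases mul_self_eq_mul_self_iff.1 h2 with h3 | h3
    · exact h3
    · exfalso
      have h4 := Nb_norm U g y
      rw [h3, Nb_neg U] at h4
      have h5 : g (Algebra.norm N y) = Algebra.norm N y := by
        rcases mul_self_eq_mul_self_iff.1 hn with h6 | h6
        · rw [h6, g.commutes]
        · rw [h6, map_neg, g.commutes]
      rw [h5] at h4
      have h6 : (2 : N) * Algebra.norm N y = 0 := by linear_combination -h4
      exact hn0 ((mul_eq_zero.1 h6).resolve_left two_ne_zero)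
  have hco : ∀ i : Fin 3, ∃ z : F, algebraMap F N z = (Nb_cub U).co i y := by
    intro i
    have h2 := (IsGalois.mem_range_algebraMap_iff_fixed (F := F) (E := N) ((Nb_cub U).co i y)).2
      (fun g => by rw [← Nb_coe U, hfix])
    exact h2
  obtain ⟨z0, hz0⟩ := hco 0
  obtain ⟨z1, hz1⟩ := hco 1
  obtain ⟨z2, hz2⟩ := hco 2
  rw [H38T1.sc_eq_zero hx]
  refine ⟨algebraMap F L z0 + algebraMap F L z1 * θ + algebraMap F L z2 * θ ^ 2, ?_⟩
  apply (algebraMap L LN).injective
  have hy' : algebraMap L LN (algebraMap F L z0 + algebraMap F L z1 * θ +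
      algebraMap F L z2 * θ ^ 2) = y := by
    rw [Nb_map U, hz0, hz1, hz2]
    exact ((Nb_cub U).eq_co y).symm
  rw [map_mul, hy', hy]

theorem UpN.inj2 (U : UpN S N LN) [IsGalois K N]
    (hsq : ¬ IsSquare (algebraMap K N (-(4 * a ^ 3 + 27 * b ^ 2)))) {c : SC L}
    (hc : c ∈ H30ZO.HH F L) :
    scm (algebraMap L LN : L →* LN)
      (c + sc (algebraMap F L (algebraMap K F (-(4 * a ^ 3 + 27 * b ^ 2))))) ≠ 0 := by
  intro h
  have hfdF : FiniteDimensional F L := Ex_fd F L
  obtain ⟨x, hx, rfl⟩ := H38T1.sc_surj c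
  rw [H30ZO.mem_HH hx] at hc
  obtain ⟨t, ht⟩ := hc
  obtain ⟨Δ, hΔ⟩ : ∃ Δ : K, Δ = -(4 * a ^ 3 + 27 * b ^ 2) := ⟨_, rfl⟩
  rw [← hΔ] at h hsq
  have hΔ0 : Δ ≠ 0 := by
    rw [hΔ]
    exact neg_ne_zero.2 S.dne
  have hF0 : algebraMap K F Δ ≠ 0 := (map_ne_zero _).2 hΔ0
  have hL0 : algebraMap F L (algebraMap K F Δ) ≠ 0 := (map_ne_zero _).2 hF0
  have hN0 : algebraMap K N Δ ≠ 0 := (map_ne_zero _).2 hΔ0
  have hx2 : x * algebraMap F L (algebraMap K F Δ) ≠ 0 := mul_ne_zero hx hL0
  rw [← H38T1.sc_mul hx hL0, H76PP.scm_sc _ hx2] at h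
  have h1 : IsSquare (algebraMap L LN (x * algebraMap F L (algebraMap K F Δ))) :=
    (H38T1.sc_eq_zero ((map_ne_zero _).2 hx2)).1 h
  obtain ⟨y, hy⟩ := h1
  have hn : Algebra.norm N y * Algebra.norm N y =
      algebraMap F N t * algebraMap F N t * algebraMap K N Δ ^ 3 := by
    rw [← map_mul, ← hy, U.norm, map_mul, ht, Algebra.norm_algebraMap, S.cub.finrank, map_mul,
      map_mul, map_pow, ← IsScalarTower.algebraMap_apply]
  have ht0 : t ≠ 0 := by
    rintro rfl
    rw [mul_zero] at ht
    exact Algebra.norm_ne_zero_iff.2 hx ht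
  have hT0 : algebraMap F N t ≠ 0 := (map_ne_zero _).2 ht0
  apply hsq
  refine ⟨Algebra.norm N y / (algebraMap F N t * algebraMap K N Δ), ?_⟩
  field_simp
  linear_combination -hn

end

end H26GX
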