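import Pool.Agent.H88.GX.Na
import Pool.Agent.H88.GX.Nb
import Pool.Agent.H88.GX.Nc

/-!
ROW Nd (MP_78d38b_GN, helper26, about 200 lines): special primes which split completely in `N`.  Use the STATEMENTS of Na, Nb, Nc, `ext_fun` of Qc and `H76OD.cheb_N`, `H76GX.exists_irep` (Pool/Agent/H76/OD/Cha.lean, Ch.lean), `H30MQ.la_iff`, `H30MQ.fin_mem`.

PROOF of rich_N. Given `Sg, Y, φ, A₀`. `LN` by exists_up. Let `Algebra K LN := ((algebraMap N LN).comp (algebraMap K N)).toAlgebra`, scalar tower `K N LN`. `j := scm (algebraMap L LN)`.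
Functional: `H' : AddSubgroup (SC LN)` := the image under `j` of `HH F L ⊔ {0, sc Δ_L}`, `Δ_L` the image of `Δ = -(4 a^3 + 27 b^2)` in `L`. We need `φN : SC LN →+ ZMod 2` with `φN (j c) = φ c` for `c ∈ HH F L` and `φN (j (sc Δ_L)) = 1`. (a) `φ' : SC L →+ ZMod 2` with `φ' = φ` on `HH` and `φ' (sc Δ_L) = 1`: as in the proof of `exists_sp` (`hφ'`; `sc Δ ≠ 0` in `SC F` because `Δ` is not a square in `N`).
(b) `j` is injective on the subgroup `B := HH F L ⊔ AddSubgroup.zmultiples (sc Δ_L)` (elements `h` or `h + sc Δ_L` as `2 x = 0`): UpN.inj, UpN.inj2. So `φ'` on `B` transports to `B.map j` (`AddEquiv` of `B` with `B.map j`, or: kernel of `j|B` is trivial, use `AddMonoidHom.liftOfSurjective`-like or `ext_fun` for the graph: simplest: by `ext_fun` it suffices to define `ψ : B.map j →+ ZMod 2`, `ψ := φ'.comp (B.subtype.comp e.symm)` with `e : B ≃+ B.map j` (`AddSubgroup.equivMapOfInjective` needs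 injectivity on the whole group; use `AddMonoidHom.ofInjective` for `(j.comp B.subtype)`)), then extend by ext_fun.
Elements: `r c : 𝓞 L` with `r c ≠ 0`, `sc (r c) = c` (`exists_irep`), `δ : 𝓞 L` with value `Δ_L` (`Lt_int`), `D := insert (δN) (image of r c, c ∈ Y)` in `𝓞 LN` (`algebraMap (𝓞 L) (𝓞 LN)`), all nonzero. `sc (algebraMap L LN x) = j (sc x)` (`scm_sc`).
Bad set: `A₀ ∪ Sg ∪ Bd` (Nc) `∪ ⋃ g ≠ 1 in Gal(N/K), {v | ∃ W : place of N, dn K W = v ∧ gO (gq g) (X g) - X g ∈ W.asIdeal}` (with `X g ∈ 𝓞 N`, `g (X g) ≠ X g`, as `hmove`, `hfinK` in the proof of exists_sp, for `N / K`), finite. `cheb_N (K := K) (N := LN) D _ φN _ hbad` gives `T` with `2 ∉ T`, every `x ∈ 𝓞 LN` congruent mod `T` to some `n ∈ 𝓞 K`, and `d ∉ T`, `la T (sc d) = φN (sc d)` for `d ∈ D`.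
`w := dn L T`; `dn K (dn F w) = dn K T` (algebra maps agree, `U.tower`); `2 ∉ w`; degree one for `w`; for `d ∈ 𝓞 L` with image not in `T`: `la w (sc d) = la T (sc (algebraMap L LN d))` (`la_zmod`: two elements of `ZMod 2` which vanish simultaneously are equal; by la_iff: `d - y² ∈ w` implies the same in `T`; conversely `d - y² ∈ T`, `y ≡ n ∈ 𝓞 K` mod `T`, so `d - n² ∈ T ∩ 𝓞 L = w`). So exists_core gives `P` with `P.t1 = w`, `P.q = dn K T`.
`la P.t1 c = la w (sc (r c)) = φN (j c) = φ' c = φ c` for `c ∈ Y`.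
`P.q ∈ Zs K N`: let `W₀ := dn N T`, `dn K W₀ = P.q`. If `g ≠ 1` and `gq g • W₀ = W₀`: as the `fr` part of the proof of exists_sp: `X g ≡ m` mod `W₀` with `m ∈ 𝓞 K`, so `gO (gq g) (X g) - X g ∈ W₀`: excluded. For any `W` with `dn K W = P.q` there is `h : N ≃ₐ[K] N` with `W = gq h • W₀` (transitivity: see `aboveF` in Pool/Agent/H88/OD/Gc.lean, or `H36O2`/Mathlib `Ideal.exists_smul_eq_of_isGaloisGroup`..) and `gq g • W = W` gives `gq (h⁻¹ g h) • W₀ = W₀`, `g = 1`.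
-/

set_option autoImplicit false
set_option linter.unusedSectionVars false
open scoped Classical

open WithZero NumberField IsDedekindDomain H38RT
open H38T1 (SC sc scu rep eo la si OddP)
open H76PP (Cub LC ev scm dn)
open H88GX

namespace H26GX


open H26OD (Zs)
variable {K F L : Type} [Field K] [NumberField K] [Field F] [NumberField F] [Field L]
  [NumberField L] [Algebra K F] [Algebra F L] {a b : K} {θ : L}

private theorem Nd_two (x : ZMod 2) : x = 0 ∨ x = 1 := by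
  revert x
  decide

/-- The functional on the square classes of `L`. -/
private theorem Nd_fun (S : Ext K F L a b θ) (φ : SC L →+ ZMod 2) :
    ∃ φ' : SC L →+ ZMod 2, (∀ c ∈ H30ZO.HH F L, φ' c = φ c) ∧
      φ' (sc (algebraMap F L (algebraMap K F (-(4 * a ^ 3 + 27 * b ^ 2))))) = 1 := by
  obtain ⟨δ, hδ⟩ : ∃ δ : F, δ = algebraMap K F (-(4 * a ^ 3 + 27 * b ^ 2)) := ⟨_, rfl⟩
  rw [← hδ]
  have hδ0 : δ ≠ 0 := by
    rw [hδ]
    exact (map_ne_zero _).2 (neg_ne_zero.2 S.dne)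
  have hgal := S.gal
  have hδs : ¬ IsSquare δ := by
    rw [hδ]
    exact S.dsq
  have hfin : Module.Finite F L := Module.Finite.of_basis S.cub.basis
  have hδL0 : algebraMap F L δ ≠ 0 := (map_ne_zero _).2 hδ0
  obtain ⟨χ, hχ⟩ := H76GX.exists_fun (c := sc δ) (by
    intro h
    exact hδs ((H38T1.sc_eq_zero hδ0).1 h))
  have hnorm : scm (Algebra.norm F : L →* F) (sc (algebraMap F L δ)) = sc δ := by
    rw [H76PP.scm_sc _ hδL0]
    have h1 : Algebra.norm F (algebraMap F L δ) = δ * δ ^ 2 := by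
      rw [Algebra.norm_algebraMap, S.cub.finrank]
      ring
    change sc (Algebra.norm F (algebraMap F L δ)) = _
    rw [h1, H38T1.sc_mul hδ0 (pow_ne_zero 2 hδ0), H54MT.sc_sq hδ0, add_zero]
  obtain ⟨ψ, hψ⟩ : ∃ ψ : SC L →+ ZMod 2, ψ = χ.comp (scm (Algebra.norm F : L →* F)) := ⟨_, rfl⟩
  have hψ0 : ∀ c ∈ H30ZO.HH F L, ψ c = 0 := by
    intro c hc
    have h1 : scm (Algebra.norm F : L →* F) c = 0 := hc
    rw [hψ, AddMonoidHom.comp_apply, h1, map_zero]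
  have hψ1 : ψ (sc (algebraMap F L δ)) = 1 := by
    rw [hψ, AddMonoidHom.comp_apply, hnorm, hχ]
  rcases Nd_two (φ (sc (algebraMap F L δ))) with h | h
  · refine ⟨φ + ψ, fun c hc => ?_, ?_⟩
    · rw [AddMonoidHom.add_apply, hψ0 c hc, add_zero]
    · rw [AddMonoidHom.add_apply, hψ1, h, zero_add]
  · exact ⟨φ, fun c _ => rfl, h⟩

private theorem Nd_2 {M : Type} [Field M] (x : SC M) : x + x = 0 := by
  have h := H38T1.SC.two_smul x
  rwa [two_nsmul] at h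

/-- A functional on `B` transports along a homomorphism which is injective on `B`. -/
private theorem Nd_tr {M M' : Type} [Field M] [Field M'] (j : SC M →+ SC M')
    (B : AddSubgroup (SC M)) (hj : ∀ x ∈ B, j x = 0 → x = 0) (φ' : SC M →+ ZMod 2) :
    ∃ φN : SC M' →+ ZMod 2, ∀ x ∈ B, φN (j x) = φ' x := by
  let f : B →+ SC M' := j.comp B.subtype
  have hf : Function.Injective f := by
    rw [injective_iff_map_eq_zero]
    intro x hx
    apply Subtype.ext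
    exact hj x x.2 hx
  let e : B ≃+ f.range := AddMonoidHom.ofInjective hf
  obtain ⟨φN, h⟩ := ext_fun (fun x : SC M' => Nd_2 x) f.range
    ((φ'.comp B.subtype).comp e.symm.toAddMonoidHom)
  refine ⟨φN, fun x hx => ?_⟩
  have h1 := h (e ⟨x, hx⟩)
  have h2 : ((e ⟨x, hx⟩ : f.range) : SC M') = j x := rfl
  rw [h2] at h1
  rw [h1]
  change φ' ((e.symm (e ⟨x, hx⟩) : B) : SC M) = φ' x
  rw [AddEquiv.symm_apply_apply]

private theorem Nd_odd {M : Type} [Field M] [NumberField M] {w : HeightOneSpectrum (𝓞 M)}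
    (hw2 : (2 : 𝓞 M) ∉ w.asIdeal) : OddP w := by
  have h3 : w.valuation M ((2 : 𝓞 M) : M) = 1 := w.valuation_eq_one_iff_notMem.mpr hw2
  have h4 : ((2 : 𝓞 M) : M) = 2 := map_ofNat _ 2
  rw [h4] at h3
  exact h3

/-- Equal symbols at a place of degree one. -/
private theorem Nd_la {M M' K' : Type} [Field M] [NumberField M] [Field M'] [NumberField M']
    [Field K'] [NumberField K'] [Algebra M M'] [Algebra K' M] [Algebra K' M'] [IsScalarTower K' M M']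
    {T : HeightOneSpectrum (𝓞 M')} (hT2 : (2 : 𝓞 M') ∉ T.asIdeal)
    (hdeg : ∀ x : 𝓞 M', ∃ n : 𝓞 K', algebraMap (𝓞 K') (𝓞 M') n - x ∈ T.asIdeal) {d : 𝓞 M}
    (hd : algebraMap (𝓞 M) (𝓞 M') d ∉ T.asIdeal) :
    la (dn M T) (sc (d : M)) = la T (sc ((algebraMap (𝓞 M) (𝓞 M') d : 𝓞 M') : M')) := by
  have hw2 : (2 : 𝓞 M) ∉ (dn M T).asIdeal := by
    intro h
    apply hT2
    have h1 : algebraMap (𝓞 M) (𝓞 M') 2 ∈ T.asIdeal := h
    rwa [map_ofNat] at h1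
  have hdw : d ∉ (dn M T).asIdeal := hd
  have h1 := H30MQ.la_iff (Nd_odd hw2) hdw
  have h2 := H30MQ.la_iff (Nd_odd hT2) hd
  have h3 : la (dn M T) (sc (d : M)) = 0 ↔
      la T (sc ((algebraMap (𝓞 M) (𝓞 M') d : 𝓞 M') : M')) = 0 := by
    rw [h1, h2]
    constructor
    · rintro ⟨y, hy⟩
      refine ⟨algebraMap (𝓞 M) (𝓞 M') y, ?_⟩
      rw [← map_pow, ← map_sub]
      exact hy
    · rintro ⟨y, hy⟩
      obtain ⟨n, hn⟩ := hdeg y
      refine ⟨algebraMap (𝓞 K') (𝓞 M) n, ?_⟩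
      change algebraMap (𝓞 M) (𝓞 M') (d - algebraMap (𝓞 K') (𝓞 M) n ^ 2) ∈ T.asIdeal
      rw [map_sub, map_pow, ← IsScalarTower.algebraMap_apply (𝓞 K') (𝓞 M) (𝓞 M') n]
      have e : algebraMap (𝓞 M) (𝓞 M') d - algebraMap (𝓞 K') (𝓞 M') n ^ 2 =
          (algebraMap (𝓞 M) (𝓞 M') d - y ^ 2) -
            (algebraMap (𝓞 K') (𝓞 M') n - y) * (algebraMap (𝓞 K') (𝓞 M') n + y) := by
        ring
      rw [e]
      exact T.asIdeal.sub_mem hy (T.asIdeal.mul_mem_right _ hn)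
  rcases Nd_two (la (dn M T) (sc (d : M))) with h4 | h4
  · rw [h4, h3.1 h4]
  · rcases Nd_two (la T (sc ((algebraMap (𝓞 M) (𝓞 M') d : 𝓞 M') : M'))) with h5 | h5
    · rw [h3.2 h5] at h4
      exact absurd h4.symm one_ne_zero
    · rw [h4, h5]

/-- Places above the same place are conjugate. -/
private theorem Nd_conj {N : Type} [Field N] [NumberField N] [Algebra K N] [IsGalois K N]
    {W W' : HeightOneSpectrum (𝓞 N)} (h : dn K W' = dn K W) :
    ∃ g : N ≃ₐ[K] N, ∀ x : 𝓞 N, x ∈ W'.asIdeal ↔ g • x ∈ W.asIdeal := by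
  have hp : (dn K W).asIdeal = W.asIdeal.comap (algebraMap (𝓞 K) (𝓞 N)) := rfl
  have hp' : (dn K W).asIdeal = W'.asIdeal.comap (algebraMap (𝓞 K) (𝓞 N)) := by
    rw [← h]
    rfl
  have i1 : W.asIdeal.IsPrime := W.isPrime
  have i2 : W'.asIdeal.IsPrime := W'.isPrime
  have i3 : W.asIdeal.LiesOver (dn K W).asIdeal := ⟨hp⟩
  have i4 : W'.asIdeal.LiesOver (dn K W).asIdeal := ⟨hp'⟩
  obtain ⟨g, hg⟩ := Ideal.exists_smul_eq_of_isGaloisGroup (dn K W).asIdeal W'.asIdeal W.asIdeal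
    (N ≃ₐ[K] N)
  refine ⟨g, fun x => ?_⟩
  rw [← hg]
  exact Ideal.smul_mem_pointwise_smul_iff.symm

private theorem Nd_smul {N : Type} [Field N] [NumberField N] [Algebra K N] (g : N ≃ₐ[K] N)
    (x : 𝓞 N) : ((g • x : 𝓞 N) : N) = g (x : N) := rfl

theorem rich_N (S : Ext K F L a b θ) (N : Type) [Field N] [NumberField N] [Algebra K N]
    [Algebra F N] [IsScalarTower K F N] [IsGalois K N]
    (hsq : ¬ IsSquare (algebraMap K N (-(4 * a ^ 3 + 27 * b ^ 2)))) : Rich S (Zs K N) := by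
  intro Sg Y hY hYH φ A₀ hA₀
  obtain ⟨LN, _, _, _, _, U⟩ := exists_up S N hsq
  let _ : Algebra K LN := ((algebraMap N LN).comp (algebraMap K N)).toAlgebra
  have hTN : IsScalarTower K N LN := IsScalarTower.of_algebraMap_eq fun _ => rfl
  let _ : Algebra K L := ((algebraMap F L).comp (algebraMap K F)).toAlgebra
  have hTF : IsScalarTower K F L := IsScalarTower.of_algebraMap_eq fun _ => rfl
  have hTL : IsScalarTower K L LN := IsScalarTower.of_algebraMap_eq fun x => by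
    change algebraMap N LN (algebraMap K N x) = algebraMap L LN (algebraMap F L (algebraMap K F x))
    rw [U.tower, ← IsScalarTower.algebraMap_apply K F N x]
  obtain ⟨φ', hφ1, hφ2⟩ := Nd_fun S φ
  obtain ⟨ΔL, hΔL⟩ : ∃ z : L, z = algebraMap F L (algebraMap K F (-(4 * a ^ 3 + 27 * b ^ 2))) :=
    ⟨_, rfl⟩
  obtain ⟨j, hj⟩ : ∃ j : SC L →+ SC LN, j = scm (algebraMap L LN : L →* LN) := ⟨_, rfl⟩
  -- the functional on the square classes of `L N`
  obtain ⟨φN, hφN⟩ := Nd_tr j (H30ZO.HH F L ⊔ AddSubgroup.zmultiples (sc ΔL)) (by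
    intro x hx hjx
    obtain ⟨c, hc, y, hy, rfl⟩ := AddSubgroup.mem_sup.1 hx
    obtain ⟨k, rfl⟩ := AddSubgroup.mem_zmultiples_iff.1 hy
    rcases Int.even_or_odd' k with ⟨m, rfl | rfl⟩
    · have e : (2 * m) • sc ΔL = 0 := by
        rw [two_mul, add_smul]
        exact Nd_2 _
      rw [e, add_zero] at hjx ⊢
      rw [hj] at hjx
      exact U.inj hc hjx
    · have e : (2 * m + 1) • sc ΔL = sc ΔL := by
        rw [add_smul, two_mul, add_smul, one_smul, Nd_2, zero_add]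
      rw [e, hj, hΔL] at hjx
      exact absurd hjx (U.inj2 hsq hc)) φ'
  have hN1 : ∀ c ∈ H30ZO.HH F L, φN (j c) = φ c := by
    intro c hc
    rw [hφN c (AddSubgroup.mem_sup_left hc), hφ1 c hc]
  have hN2 : φN (j (sc ΔL)) = 1 := by
    rw [hφN _ (AddSubgroup.mem_sup_right (AddSubgroup.mem_zmultiples _)), hΔL, hφ2]
  -- the elements
  choose r hr0 hr1 using (fun c : SC L => H76GX.exists_irep c)
  obtain ⟨a₀, ha₀⟩ := H76OD.Lt_int S.ha
  obtain ⟨b₀, hb₀⟩ := H76OD.Lt_int S.hb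
  obtain ⟨δ, hδ⟩ : ∃ δ : 𝓞 L, δ = algebraMap (𝓞 F) (𝓞 L)
      (algebraMap (𝓞 K) (𝓞 F) (-(4 * a₀ ^ 3 + 27 * b₀ ^ 2))) := ⟨_, rfl⟩
  have hδL : (δ : L) = ΔL := by
    have e1 : ((-(4 * a₀ ^ 3 + 27 * b₀ ^ 2) : 𝓞 K) : K) = -(4 * a ^ 3 + 27 * b ^ 2) := by
      change algebraMap (𝓞 K) K (-(4 * a₀ ^ 3 + 27 * b₀ ^ 2)) = _
      simp only [map_neg, map_add, map_mul, map_pow, map_ofNat]
      rw [show algebraMap (𝓞 K) K a₀ = a from ha₀, show algebraMap (𝓞 K) K b₀ = b from hb₀]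
    rw [hδ, hΔL, ← e1]
    rfl
  have hΔ0 : ΔL ≠ 0 := by
    rw [hΔL]
    exact (map_ne_zero _).2 ((map_ne_zero _).2 (neg_ne_zero.2 S.dne))
  have hδ0 : δ ≠ 0 := by
    intro h
    apply hΔ0
    rw [← hδL, h]
    rfl
  have hinj : Function.Injective (algebraMap (𝓞 L) (𝓞 LN)) := by
    intro x y hxy
    apply RingOfIntegers.coe_injective
    apply (algebraMap L LN).injective
    exact congrArg (fun z : 𝓞 LN => (z : LN)) hxy
  have hi0 : ∀ x : 𝓞 L, x ≠ 0 → algebraMap (𝓞 L) (𝓞 LN) x ≠ 0 := by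
    intro x hx h
    apply hx
    apply hinj
    rw [h, map_zero]
  have hjsc : ∀ x : 𝓞 L, x ≠ 0 →
      sc ((algebraMap (𝓞 L) (𝓞 LN) x : 𝓞 LN) : LN) = j (sc (x : L)) := by
    intro x hx
    have hx0 : (x : L) ≠ 0 := by
      intro h
      apply hx
      apply RingOfIntegers.coe_injective
      exact h.trans (map_zero _).symm
    rw [hj, H76PP.scm_sc _ hx0]
    rfl
  obtain ⟨D, hD⟩ : ∃ D : Finset (𝓞 LN), D = insert (algebraMap (𝓞 L) (𝓞 LN) δ)
      (hY.toFinset.image fun c => algebraMap (𝓞 L) (𝓞 LN) (r c)) := ⟨_, rfl⟩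
  have hD0 : ∀ d ∈ D, d ≠ 0 := by
    intro d hd
    rw [hD, Finset.mem_insert, Finset.mem_image] at hd
    rcases hd with rfl | ⟨c, -, rfl⟩
    · exact hi0 _ hδ0
    · exact hi0 _ (hr0 c)
  -- the bad places
  obtain ⟨Bd, hBd, hcore⟩ := exists_core S
  have hmove : ∀ g : N ≃ₐ[K] N, g ≠ 1 → ∃ x : 𝓞 N, g • x - x ≠ 0 := by
    intro g hg
    by_contra hcon
    push Not at hcon
    apply hg
    apply AlgEquiv.ext
    intro y
    obtain ⟨α, β, -, hxy⟩ := IsFractionRing.div_surjective (A := 𝓞 N) y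
    have h1 : ∀ z : 𝓞 N, g (z : N) = (z : N) := by
      intro z
      have h2 := sub_eq_zero.1 (hcon z)
      have h3 := congrArg (fun t : 𝓞 N => (t : N)) h2
      exact h3
    change g y = y
    rw [← hxy, map_div₀]
    exact congrArg₂ (· / ·) (h1 α) (h1 β)
  choose! X hX using hmove
  have hfinK : ∀ x : 𝓞 N, x ≠ 0 → {v : HeightOneSpectrum (𝓞 K) |
      ∃ w : HeightOneSpectrum (𝓞 N), dn K w = v ∧ x ∈ w.asIdeal}.Finite := by
    intro x hx
    refine ((H30MQ.fin_mem hx).image (dn K)).subset ?_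
    rintro v ⟨w, rfl, hw⟩
    exact ⟨w, hw, rfl⟩
  have hbad : (((A₀ ∪ (Sg : Set (HeightOneSpectrum (𝓞 K)))) ∪ Bd) ∪
      ⋃ g : {g : N ≃ₐ[K] N // g ≠ 1}, {v : HeightOneSpectrum (𝓞 K) |
        ∃ w : HeightOneSpectrum (𝓞 N), dn K w = v ∧ g.1 • X g.1 - X g.1 ∈ w.asIdeal}).Finite := by
    refine ((hA₀.union Sg.finite_toSet).union hBd).union ?_
    exact Set.finite_iUnion fun g => hfinK _ (hX g.1 g.2)
  obtain ⟨T, hTB, hT2, hdeg, hla⟩ := H76OD.cheb_N (K := K) D hD0 φN _ hbad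
  have e1 : ∀ x : 𝓞 K, algebraMap (𝓞 L) (𝓞 LN) (algebraMap (𝓞 F) (𝓞 L)
      (algebraMap (𝓞 K) (𝓞 F) x)) = algebraMap (𝓞 K) (𝓞 LN) x := by
    intro x
    apply RingOfIntegers.coe_injective
    exact (IsScalarTower.algebraMap_apply K L LN (x : K)).symm
  have e2 : ∀ x : 𝓞 K, algebraMap (𝓞 N) (𝓞 LN) (algebraMap (𝓞 K) (𝓞 N) x) =
      algebraMap (𝓞 K) (𝓞 LN) x := by
    intro x
    apply RingOfIntegers.coe_injective
    rfl
  obtain ⟨w, hw⟩ : ∃ w : HeightOneSpectrum (𝓞 L), w = dn L T := ⟨_, rfl⟩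
  have hKw : dn K (dn F w) = dn K T := by
    apply HeightOneSpectrum.ext
    ext x
    rw [hw]
    change algebraMap (𝓞 L) (𝓞 LN) (algebraMap (𝓞 F) (𝓞 L) (algebraMap (𝓞 K) (𝓞 F) x)) ∈
      T.asIdeal ↔ algebraMap (𝓞 K) (𝓞 LN) x ∈ T.asIdeal
    rw [e1]
  obtain ⟨W₀, hW₀⟩ : ∃ W₀ : HeightOneSpectrum (𝓞 N), W₀ = dn N T := ⟨_, rfl⟩
  have hKW : dn K W₀ = dn K T := by
    apply HeightOneSpectrum.ext
    ext x
    rw [hW₀]
    change algebraMap (𝓞 N) (𝓞 LN) (algebraMap (𝓞 K) (𝓞 N) x) ∈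
      T.asIdeal ↔ algebraMap (𝓞 K) (𝓞 LN) x ∈ T.asIdeal
    rw [e2]
  have hw2 : (2 : 𝓞 L) ∉ w.asIdeal := by
    intro h
    apply hT2
    rw [hw] at h
    have h1 : algebraMap (𝓞 L) (𝓞 LN) 2 ∈ T.asIdeal := h
    rwa [map_ofNat] at h1
  have hlaT : ∀ d : 𝓞 L, d ≠ 0 → algebraMap (𝓞 L) (𝓞 LN) d ∈ D →
      d ∉ w.asIdeal ∧ la w (sc (d : L)) = φN (j (sc (d : L))) := by
    intro d hd0 hd
    obtain ⟨h1, h2⟩ := hla _ hd
    refine ⟨?_, ?_⟩
    · rw [hw]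
      exact h1
    · rw [hw, Nd_la (K' := K) hT2 hdeg h1, h2, hjsc d hd0]
  have hδD : algebraMap (𝓞 L) (𝓞 LN) δ ∈ D := by
    rw [hD]
    exact Finset.mem_insert_self _ _
  obtain ⟨hδw, hδla⟩ := hlaT δ hδ0 hδD
  rw [hδL, hN2] at hδla
  have hdegw : ∀ x : 𝓞 L, ∃ n : 𝓞 K,
      algebraMap (𝓞 F) (𝓞 L) (algebraMap (𝓞 K) (𝓞 F) n) - x ∈ w.asIdeal := by
    intro x
    obtain ⟨n, hn⟩ := hdeg (algebraMap (𝓞 L) (𝓞 LN) x)
    refine ⟨n, ?_⟩
    rw [hw]
    change algebraMap (𝓞 L) (𝓞 LN)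
      (algebraMap (𝓞 F) (𝓞 L) (algebraMap (𝓞 K) (𝓞 F) n) - x) ∈ T.asIdeal
    rw [map_sub, e1]
    exact hn
  have hB1 : dn K (dn F w) ∉ Bd := by
    rw [hKw]
    exact fun h => hTB (Or.inl (Or.inr h))
  have hB2 : dn K (dn F w) ∉ Sg := by
    rw [hKw]
    exact fun h => hTB (Or.inl (Or.inl (Or.inr h)))
  obtain ⟨P, hP1, hP2⟩ := hcore Sg w hB1 hB2 hw2 hdegw δ (hδL.trans hΔL) hδw (by
    rw [hδL]
    exact hδla)
  rw [hKw] at hP2
  refine ⟨P, ?_, ?_, fun c hc => ?_⟩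
  · intro W hW g hg
    rw [hP2, ← hKW] at hW
    obtain ⟨k, hk⟩ := Nd_conj hW
    have hgW : ∀ x : 𝓞 N, x ∈ W.asIdeal ↔ g⁻¹ • x ∈ W.asIdeal := by
      intro x
      have h1 : x ∈ (gq g • W).asIdeal ↔ H38T1.gO (gq g)⁻¹ x ∈ W.asIdeal := Iff.rfl
      rw [hg] at h1
      have h2 : H38T1.gO (gq g)⁻¹ x = g⁻¹ • x := by
        apply RingOfIntegers.coe_injective
        rfl
      rw [h2] at h1
      exact h1
    have hst : ∀ y : 𝓞 N, y ∈ W₀.asIdeal ↔ (k * g⁻¹ * k⁻¹) • y ∈ W₀.asIdeal := by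
      intro y
      have h1 := hk (k⁻¹ • y)
      rw [smul_inv_smul] at h1
      rw [← h1, hgW, hk, smul_smul, smul_smul]
    have hkk : k * g⁻¹ * k⁻¹ = 1 := by
      by_contra hne
      obtain ⟨s, hs⟩ : ∃ s : N ≃ₐ[K] N, s = k * g⁻¹ * k⁻¹ := ⟨_, rfl⟩
      rw [← hs] at hne hst
      obtain ⟨m, hm⟩ := hdeg (algebraMap (𝓞 N) (𝓞 LN) (X s))
      have hm1 : algebraMap (𝓞 K) (𝓞 N) m - X s ∈ W₀.asIdeal := by
        rw [hW₀]
        change algebraMap (𝓞 N) (𝓞 LN) (algebraMap (𝓞 K) (𝓞 N) m - X s) ∈ T.asIdeal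
        rw [map_sub, e2]
        exact hm
      have hm2 := (hst _).1 hm1
      have h5 : s • algebraMap (𝓞 K) (𝓞 N) m = algebraMap (𝓞 K) (𝓞 N) m := by
        apply RingOfIntegers.coe_injective
        exact s.commutes (m : K)
      rw [smul_sub, h5] at hm2
      have h6 : s • X s - X s ∈ W₀.asIdeal := by
        have h7 : s • X s - X s = (algebraMap (𝓞 K) (𝓞 N) m - X s) -
            (algebraMap (𝓞 K) (𝓞 N) m - s • X s) := by
          ring
        rw [h7]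
        exact W₀.asIdeal.sub_mem hm1 hm2
      apply hTB
      right
      exact Set.mem_iUnion.2 ⟨⟨s, hne⟩, W₀, hKW, h6⟩
    have h8 : g⁻¹ = 1 := by
      have h9 : g⁻¹ = k⁻¹ * (k * g⁻¹ * k⁻¹) * k := by group
      rw [h9, hkk]
      group
    exact inv_eq_one.1 h8
  · rw [hP2]
    exact fun h => hTB (Or.inl (Or.inl (Or.inl h)))
  · have h3 : algebraMap (𝓞 L) (𝓞 LN) (r c) ∈ D := by
      rw [hD, Finset.mem_insert, Finset.mem_image]
      exact Or.inr ⟨c, hY.mem_toFinset.2 hc, rfl⟩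
    have h4 := (hlaT _ (hr0 c) h3).2
    rw [hr1, hN1 c (hYH c hc)] at h4
    rw [hP1]
    exact h4

end H26GX
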