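import Pool.Agent.H88.GX.Gt
import Pool.Agent.H30.ZO.Ai
import Pool.Agent.H30.ZO.Eb

/-!
ROW Gd (project MP_78d38b_GN, about 200 lines): the classes ramified at two special primes.  Use the STATEMENTS of Ga, Gc, Gt.

PROOF. `n := algebraMap F L (Algebra.norm F z)`, `c := sc (z * n)`. `N (z n) = N(z) N(z)^3 = (N(z)^2)^2` (`Algebra.norm_algebraMap`, `finrank F L = 3` by `S.cub.finrank`), so `c ∈ HH F L` (`H30ZO.mem_HH`).
Orders of `N(z)`: `v(N z) = Σ_{w | v} f_w w(z)` (`H76PP.ord_norm`, Pool/Agent/H76/PP/Tb.lean): zero except at `v = P.v` (`f = 2` at `t2`, so the order is `2`) and `v = P'.v` (order `-2`) (`P.v ≠ P'.v` because the primes `q` are different). The residue degree at `t2` is two: see `TwG` lemmas (Pool/Agent/H76/MQ/Ga.lean ... `gg_eo1`: from the degree formula `Σ e f = 3`, `f(t1) = 1`),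
or: avoid it: `N(z)` has even order at `P.v` because `v(N z) = t1(z) f(t1) + t2(z) f(t2)` and ... `f(t2) = 2`. So `n` has even order at all places of `L` (unramified at `t1, t2` by `ord1, ord2`; zero elsewhere), and `eo w c = (ord_w z : ZMod 2)`: equal to one at `w = P.t2` and `w = P'.t2` and zero at all other places.
`P.tr c`: the coefficient at `g` is `eo P.t2 (S.ρ g⁻¹ • c) = eo (S.ρ g • P.t2) c` (`H38T1.eo_smul`), which is one iff `S.ρ g • P.t2 = P.t2` (iff `g = 1`, `P.fr`) or `S.ρ g • P.t2 = P'.t2` (impossible: the primes of `K` below are different: dn_smul, dn_gq). So `P.tr c = 1`; the same for `P'` (`ord = -1` is odd).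
S.Triv: `w` above `Sg`: `z` is a square in the completion `L_w` (`hz.sq`). `N z` is a square in `F_v`, `v = dn F w`: the norm of a global element which is a square in all completions `L_w`, `w | v`, is a square in `F_v`: `H30ZO.norm_Sqv` (Pool/Agent/H30/ZO/Aj.lean or Ai.lean: the norm maps `Sqv` to `Sq`), so `n` is a square in `L_w`. Real: `s : L →+* ℝ`: `z` is positive at all real
places of `L`, and `N z` is positive at `s' = s.comp (algebraMap F L)`: `s'(N z)` is the product of the real `t(z) > 0`, `t | s'`, and of the absolute values squared of the complex embeddings (see Pool/Agent/H30/ZO/Ed.lean (1): sign of the norm form, or Pool/Agent/H76/OD/Lt.lean); `si s (sc x) = 0` iff `0 < s x` (`H38T1.si_sc`).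
-/

set_option autoImplicit false
set_option linter.unusedSectionVars false
open scoped Classical

open WithZero NumberField IsDedekindDomain H38RT
open H38T1 (SC sc scu rep eo la si OddP)
open H76PP (Cub LC ev scm dn)

namespace H88GX

variable {K F L : Type} [Field K] [NumberField K] [Field F] [NumberField F] [Field L]
  [NumberField L] [Algebra K F] [Algebra F L] {a b : K} {θ : L} {S : Ext K F L a b θ}
  {Sg : Finset (HeightOneSpectrum (𝓞 K))}

private theorem Gd_odd_norm {A B : 𝓞 F} (hR : H76PP.HR2 F L A B θ) {v : HeightOneSpectrum (𝓞 F)}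
    (hv : OddP v) {w₁ w₂ : HeightOneSpectrum (𝓞 L)} (h2 : H76MQ.TwG F v w₁ w₂)
    (h3 : Module.finrank F L = 3) {y : L} (hy : y ≠ 0) (h1 : eo w₁ (sc y) = 0) :
    eo v (sc (Algebra.norm F y)) = 0 := by
  obtain ⟨q, d, ψ, hl⟩ := H38T1.loc_of v
  obtain ⟨u, hu, hu'⟩ := exists_nonsq hl hv
  have hu0 : u ≠ 0 := by
    rintro rfl
    rw [map_zero] at hu
    exact zero_ne_one hu
  have he : eo v (sc u) = 0 := by
    rw [H38T1.eo_sc hu0]
    unfold ord
    rw [hu, log_one, neg_zero, Int.cast_zero]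
  have hla : la v (sc u) = 1 := by
    rw [H38T1.la_sc hv hu0, lam_unit hu, if_neg hu']
  have h4 := hR.proj hv hy hu0
  rw [H76MQ.gg_sum h2 (fun w => H38T1.tp w (sc y) (sc (algebraMap F L u)))] at h4
  unfold H38T1.tp at h4
  rw [H76MQ.Gg_eo1 h2 hu0, H76MQ.Gg_eo2 h2 hu0, he, H76MQ.gg_la1 hv h2 hu0 he, hla,
    H76MQ.gg_la2 hR hv h2 h3 hu0 he, h1] at h4
  have e4 : ∀ a b b' c d e f g : ZMod 2, (0 * 1 + 0 * a + 0 * 0 * b') + (c * 0 + 0 * d + c * 0 * e) =
      f * 1 + 0 * g + f * 0 * b → f = 0 := by decide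
  exact e4 _ _ _ _ _ _ _ _ h4

private theorem Gd_pos {A B : F} (h : Cub F L A B θ) (hd : 4 * A ^ 3 + 27 * B ^ 2 ≠ 0) {z : L}
    (hz0 : z ≠ 0) (hz : ∀ t : L →+* ℝ, 0 < t z) (s : F →+* ℝ) : 0 < s (Algebra.norm F z) := by
  have _ : FiniteDimensional F L := Module.Finite.of_restrictScalars_finite ℚ F L
  obtain ⟨c₀, c₁, c₂, hx2⟩ := h.sp z
  obtain ⟨d, hdd⟩ : ∃ d : Fin 3 → F, d = ![c₀, c₁, c₂] := ⟨_, rfl⟩
  have hxd : z = ev θ d := by
    rw [hdd, hx2]
    rfl
  have hD' : 4 * (s A) ^ 3 + 27 * (s B) ^ 2 ≠ 0 := by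
    have e : 4 * (s A) ^ 3 + 27 * (s B) ^ 2 = s (4 * A ^ 3 + 27 * B ^ 2) := by
      rw [map_add, map_mul, map_mul, map_pow, map_pow, map_ofNat, map_ofNat]
    rw [e]
    exact (map_ne_zero s).2 hd
  obtain ⟨w, hw⟩ := H30ZO.sq_real hD' (d := fun j => s (d j)) (by
    intro r hr
    obtain ⟨t, ht, htr⟩ := H30ZO.emb_real h s hr
    have h1 := hz t
    rw [hxd] at h1
    have h2 : t (ev θ d) = s (d 0) + s (d 1) * r + s (d 2) * r ^ 2 := by
      unfold ev
      rw [← ht, ← htr]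
      simp only [map_add, map_mul, map_pow, RingHom.comp_apply]
    rwa [h2] at h1)
  have h3 : s (Algebra.norm F z) = H76PP.Te_nf (s A) (s B) w * H76PP.Te_nf (s A) (s B) w := by
    rw [hxd, H76PP.Te_norm h d, ← H76PP.Te_nf_mul, hw]
    exact (H76PP.Te_nf_map s A B d).symm
  have h4 : s (Algebra.norm F z) ≠ 0 := (map_ne_zero s).2 (Algebra.norm_ne_zero_iff.2 hz0)
  rw [h3] at h4 ⊢
  exact lt_of_le_of_ne (mul_self_nonneg _) (Ne.symm h4)

private theorem Gd_int {x : K} (hx : ∀ v : HeightOneSpectrum (𝓞 K), v.valuation K x ≤ 1) :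
    ∃ A : 𝓞 F, (A : F) = algebraMap K F x := by
  obtain ⟨a', ha'⟩ := HeightOneSpectrum.mem_integers_of_valuation_le_one K x hx
  refine ⟨algebraMap (𝓞 K) (𝓞 F) a', ?_⟩
  rw [← ha']
  rfl

private theorem Gd_val {x : K} (hx : ∀ v : HeightOneSpectrum (𝓞 K), v.valuation K x ≤ 1)
    (v : HeightOneSpectrum (𝓞 F)) : v.valuation F (algebraMap K F x) ≤ 1 :=
  H76PP.val_le (hx (dn K v))

private theorem Gd_up (w : HeightOneSpectrum (𝓞 L)) {x : F}
    (hx : IsSquare (algebraMap F ((dn F w).adicCompletion F) x)) :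
    IsSquare (algebraMap L (w.adicCompletion L) (algebraMap F L x)) := by
  obtain ⟨y, hy⟩ := hx
  refine ⟨(H36CY.over_dn (K := F) w).map y, ?_⟩
  rw [← Pool.Agent.H10.Over.map_algebraMap (H36CY.over_dn (K := F) w) x, hy, map_mul]

private theorem Gd_ord_one {M : Type} [Field M] [NumberField M] {w : HeightOneSpectrum (𝓞 M)}
    {x : M} (h : w.valuation M x = 1) : ord (w.valuation M) x = 0 := by
  unfold ord
  rw [h, log_one, neg_zero]

private theorem Gd_val_one {M : Type} [Field M] [NumberField M] {w : HeightOneSpectrum (𝓞 M)}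
    {x : M} (hx : x ≠ 0) (h : ord (w.valuation M) x = 0) : w.valuation M x = 1 := by
  unfold ord at h
  have h1 : log (w.valuation M x) = 0 := by omega
  rw [← exp_log ((Valuation.ne_zero_iff (w.valuation M)).2 hx), h1, exp_zero]

theorem exists_y (h2 : ∀ v, v ∉ Sg → v.valuation K 2 = 1) (P P' : Sp S Sg) (hne : P.q ≠ P'.q) {z : L}
    (hz : Ray L {w | dn K (dn F w) ∈ Sg} P.t2 P'.t2 z) :
    ∃ c : SC L, c ∈ H30ZO.HH F L ∧ S.Triv Sg c ∧ P.tr c = 1 ∧ P'.tr c = 1 ∧
      ∀ w : HeightOneSpectrum (𝓞 L), dn K (dn F w) ≠ P.q → dn K (dn F w) ≠ P'.q → eo w c = 0 := by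
  have _ : FiniteDimensional F L := Module.Finite.of_restrictScalars_finite ℚ F L
  have hdn : ∀ Q : Sp S Sg, dn K (dn F Q.t1) = Q.q ∧ dn K (dn F Q.t2) = Q.q := by
    intro Q
    rw [Q.tw.dn1, Q.tw.dn2]
    exact ⟨rfl, rfl⟩
  have hz0 := hz.ne
  obtain ⟨n0, hn0⟩ : ∃ n0 : F, n0 = Algebra.norm F z := ⟨_, rfl⟩
  have hn0' : n0 ≠ 0 := by
    rw [hn0]
    exact Algebra.norm_ne_zero_iff.2 hz0
  have hn : algebraMap F L n0 ≠ 0 := (map_ne_zero _).2 hn0'
  have hzn : z * algebraMap F L n0 ≠ 0 := mul_ne_zero hz0 hn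
  obtain ⟨A, hA⟩ := Gd_int (F := F) S.ha
  obtain ⟨B, hB⟩ := Gd_int (F := F) S.hb
  have hcub : Cub F L (A : F) (B : F) θ := by
    rw [hA, hB]
    exact S.cub
  have hd : 4 * (algebraMap K F a) ^ 3 + 27 * (algebraMap K F b) ^ 2 ≠ 0 := by
    have e : 4 * (algebraMap K F a) ^ 3 + 27 * (algebraMap K F b) ^ 2 =
        algebraMap K F (4 * a ^ 3 + 27 * b ^ 2) := by
      rw [map_add, map_mul, map_mul, map_pow, map_pow, map_ofNat, map_ofNat]
    rw [e]
    exact (map_ne_zero _).2 S.dne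
  have hd' : 4 * (A : F) ^ 3 + 27 * (B : F) ^ 2 ≠ 0 := by
    rw [hA, hB]
    exact hd
  have hR := H76PP.hr2 hcub hd'
  have hfr : Module.finrank F L = 3 := S.cub.finrank
  -- the orders of z
  have hzo : ∀ w : HeightOneSpectrum (𝓞 L), w ≠ P.t2 → w ≠ P'.t2 → ord (w.valuation L) z = 0 :=
    fun w h h' => Gd_ord_one (hz.out w h h')
  have hze : ∀ w : HeightOneSpectrum (𝓞 L), w ≠ P.t2 → w ≠ P'.t2 → eo w (sc z) = 0 := by
    intro w h h'
    rw [H38T1.eo_sc hz0, hzo w h h', Int.cast_zero]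
  have ht12 : P.t1 ≠ P'.t2 := by
    intro h
    apply hne
    rw [← (hdn P).1, h, (hdn P').2]
  have ht21 : P'.t1 ≠ P.t2 := by
    intro h
    apply hne
    rw [← (hdn P').1, h, (hdn P).2]
  -- parity of the order of the norm
  have hne0 : ∀ v : HeightOneSpectrum (𝓞 F), eo v (sc n0) = 0 := by
    intro v
    rw [hn0]
    by_cases hv : v = P.v
    · rw [hv]
      exact Gd_odd_norm hR (P.odd h2).1 P.tw.toTwG hfr hz0 (hze _ P.tw.ne ht12)
    by_cases hv' : v = P'.v
    · rw [hv']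
      exact Gd_odd_norm hR (P'.odd h2).1 P'.tw.toTwG hfr hz0 (hze _ ht21 P'.tw.ne)
    rw [H38T1.eo_sc (hn0 ▸ hn0'), H76PP.ord_norm v hz0, finsum_eq_zero_of_forall_eq_zero,
      Int.cast_zero]
    rintro ⟨w, hw⟩
    have h5 : w ≠ P.t2 := by
      rintro rfl
      exact hv (hw.symm.trans P.tw.dn2)
    have h6 : w ≠ P'.t2 := by
      rintro rfl
      exact hv' (hw.symm.trans P'.tw.dn2)
    change (w.asIdeal.inertiaDeg (𝓞 F) : ℤ) * ord (w.valuation L) z = 0
    rw [hzo w h5 h6, mul_zero]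
  have hnL : ∀ w : HeightOneSpectrum (𝓞 L), eo w (sc (algebraMap F L n0)) = 0 := by
    intro w
    have h5 := hne0 (dn F w)
    rw [H38T1.eo_sc hn0'] at h5
    rw [H38T1.eo_sc hn]
    obtain ⟨e, _, he⟩ := H76PP.ord_dn (K := F) w
    rw [he n0 hn0']
    push_cast
    rw [h5, mul_zero]
  have hce : ∀ w : HeightOneSpectrum (𝓞 L), eo w (sc (z * algebraMap F L n0)) =
      (ord (w.valuation L) z : ZMod 2) := by
    intro w
    rw [H38T1.sc_mul hz0 hn, H38T1.eo_add, hnL w, add_zero, H38T1.eo_sc hz0]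
  refine ⟨sc (z * algebraMap F L n0), ?_, ⟨?_, ?_⟩, ?_, ?_, ?_⟩
  · rw [H30ZO.mem_HH hzn, map_mul, Algebra.norm_algebraMap, hfr, ← hn0]
    exact ⟨n0 ^ 2, by ring⟩
  · intro w hw
    rw [H30ZO.mem_Sq hzn, map_mul]
    have h5 : sc z ∈ H30ZO.Sqv F L (dn F w) := by
      rw [H30ZO.mem_Sqv]
      intro w' hw'
      rw [H30ZO.mem_Sq hz0]
      refine hz.sq w' ?_
      change dn K (dn F w') ∈ Sg
      rw [hw']
      exact hw
    have h6 := H30ZO.norm_Sqv S.cub (dn F w) (Gd_val S.ha _) (Gd_val S.hb _) h5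
    rw [H76PP.scm_sc _ hz0] at h6
    have h7 : ((Algebra.norm F : L →* F) z : F) = n0 := hn0.symm
    rw [h7, H30ZO.mem_Sq hn0'] at h6
    exact (hz.sq w hw).mul (Gd_up w h6)
  · intro s
    rw [H38T1.si_sc s hzn, H38RT.sw, if_neg]
    rw [not_lt, map_mul]
    refine (mul_pos (hz.pos s) ?_).le
    have h5 := Gd_pos S.cub hd hz0 hz.pos (s.comp (algebraMap F L))
    rw [← hn0] at h5
    exact h5
  · refine rg_ext fun g => ?_
    change eo P.t2 (S.ρ g⁻¹ • sc (z * algebraMap F L n0)) = (1 : RG (F ≃ₐ[K] F)).coeff g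
    have e1 : (1 : RG (F ≃ₐ[K] F)) = MonoidAlgebra.single 1 1 := rfl
    have e2 := H38T1.eo_smul (v := S.ρ g • P.t2) (S.ρ g⁻¹) (sc (z * algebraMap F L n0))
    rw [← mul_smul, ← map_mul, inv_mul_cancel, map_one, one_smul] at e2
    rw [e2, hce, e1, MonoidAlgebra.coeff_single, Finsupp.single_apply]
    by_cases hg : g = 1
    · rw [if_pos hg.symm, hg, map_one, one_smul, hz.o1, Int.cast_one]
    · rw [if_neg (Ne.symm hg), hzo, Int.cast_zero]
      · intro h
        exact hg (P.fr g h)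
      · intro h
        apply hne
        rw [← (hdn P').2, ← h, dn_smul, dn_gq, (hdn P).2]
  · refine rg_ext fun g => ?_
    change eo P'.t2 (S.ρ g⁻¹ • sc (z * algebraMap F L n0)) = (1 : RG (F ≃ₐ[K] F)).coeff g
    have e1 : (1 : RG (F ≃ₐ[K] F)) = MonoidAlgebra.single 1 1 := rfl
    have e2 := H38T1.eo_smul (v := S.ρ g • P'.t2) (S.ρ g⁻¹) (sc (z * algebraMap F L n0))
    rw [← mul_smul, ← map_mul, inv_mul_cancel, map_one, one_smul] at e2
    rw [e2, hce, e1, MonoidAlgebra.coeff_single, Finsupp.single_apply]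
    by_cases hg : g = 1
    · rw [if_pos hg.symm, hg, map_one, one_smul, hz.o2]
      decide
    · rw [if_neg (Ne.symm hg), hzo, Int.cast_zero]
      · intro h
        apply hne
        rw [← (hdn P).2, ← h, dn_smul, dn_gq, (hdn P').2]
      · intro h
        exact hg (P'.fr g h)
  · intro w hw hw'
    rw [hce, hzo, Int.cast_zero]
    · rintro rfl
      exact hw (hdn P).2
    · rintro rfl
      exact hw' (hdn P').2

end H88GX
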