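import Pool.Agent.H88.GX.Ri
import Pool.Agent.H88.GX.Ex

/-!
ROW Na (MP_78d38b_GN, helper26, about 130 lines): the field `L N` for a Galois extension `N` of `K` which contains `F`.  Use the tools of Pool/Agent/H88/OD/Ex.lean (`Ex_disc`), `H36MX.rh` (Pool/Agent/H36/MX/Df.lean: rh_algebraMap, rh_theta), `H24PD.exists_cub`. `UpN` is in Ri.lean.

noroot_N: as `noroot` in Ex.lean, but with `f = x^3 + a x + b` irreducible over `K` (degree three without root in `K`, e.g. `Polynomial.Monic.irreducible_iff_roots_eq_zero_of_degree_le_three`), so for a root `t ∈ N` `minpoly K t = f` splits in `N` (normal), and `-(4 a^3 + 27 b^2)` is a square in `N` by `Ex_disc`: contradiction.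
exists_up: `LN, θN` from `H24PD.exists_cub` over `N` (noroot_N). `j := H36MX.rh S.cub ((algebraMap N LN).comp (algebraMap F N)) (t := θN) _ : L →+* LN`, instance `Algebra L LN := j.toAlgebra`.
no root of `x^3 + a x + b` in `K`: `S.cub` (a root `t` in `K` would be a root in `F`; `Cub` has a field or lemma for this, see Pool/Agent/H76/PP or H36/MX; e.g. `(θ - t)(θ^2 + tθ + t^2 + a) = 0`, contradiction to the independence of `1, θ, θ²`).
-/

set_option autoImplicit false
set_option linter.unusedSectionVars false
open scoped Classical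

open WithZero NumberField IsDedekindDomain H38RT
open H38T1 (SC sc scu rep eo la si OddP)
open H76PP (Cub LC ev scm dn)
open H88GX

namespace H26GX

private theorem na_root {F L : Type} [Field F] [Field L] [Algebra F L] {A B : F} {θ : L}
    (h : Cub F L A B θ) (x : F) : x ^ 3 + A * x + B ≠ 0 := by
  intro hx
  have h1 : (θ - algebraMap F L x) * (algebraMap F L (x ^ 2 + A) + algebraMap F L x * θ +
      algebraMap F L 1 * θ ^ 2) = 0 := by
    have h2 : algebraMap F L (x ^ 3 + A * x + B) = 0 := by rw [hx, map_zero]
    have h3 := h.root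
    simp only [map_add, map_mul, map_pow, map_one] at h2 ⊢
    linear_combination h3 - h2
  rcases mul_eq_zero.1 h1 with h2 | h2
  · have h3 := h.li (-x) 1 0 (by
      rw [map_neg, map_one, map_zero]
      linear_combination h2)
    exact one_ne_zero h3.2.1
  · exact one_ne_zero (h.li _ _ _ h2).2.2

theorem noroot_N {K N : Type} [Field K] [NumberField K] [Field N] [NumberField N] [Algebra K N]
    [IsGalois K N] {a b : K} (hir : ∀ t : K, t ^ 3 + a * t + b ≠ 0)
    (hsq : ¬ IsSquare (algebraMap K N (-(4 * a ^ 3 + 27 * b ^ 2)))) (t : N) :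
    t ^ 3 + algebraMap K N a * t + algebraMap K N b ≠ 0 := by
  intro ht
  have _ : FiniteDimensional K N := Ex_fd K N
  have hf3 : (Polynomial.X ^ 3 + Polynomial.C a * Polynomial.X + Polynomial.C b :
      Polynomial K).natDegree = 3 := by
    compute_degree!
  have hfm : (Polynomial.X ^ 3 + Polynomial.C a * Polynomial.X + Polynomial.C b :
      Polynomial K).Monic := by
    monicity!
  set f : Polynomial K := Polynomial.X ^ 3 + Polynomial.C a * Polynomial.X + Polynomial.C b with hf
  have h1 : (Polynomial.aeval t) f = 0 := by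
    rw [hf]
    simp only [map_add, map_mul, map_pow, Polynomial.aeval_X, Polynomial.aeval_C]
    exact ht
  have hirr : Irreducible f := by
    rw [hfm.irreducible_iff_roots_eq_zero_of_degree_le_three (by rw [hf3]; norm_num)
      (by rw [hf3])]
    refine Multiset.eq_zero_of_forall_notMem fun z hz => hir z ?_
    rw [Polynomial.mem_roots hfm.ne_zero, Polynomial.IsRoot.def, hf] at hz
    simpa using hz
  have heq : f = minpoly K t := minpoly.eq_of_irreducible_of_monic hirr h1 hfm
  have hsp : ((minpoly K t).map (algebraMap K N)).Splits := Normal.splits inferInstance t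
  rw [← heq] at hsp
  have hfF : (f.map (algebraMap K N)).natDegree = 3 := by
    rw [hfm.natDegree_map, hf3]
  have hcard : (f.map (algebraMap K N)).roots.card = 3 := by
    rw [← hsp.natDegree_eq_card_roots, hfF]
  obtain ⟨r, s, u, hrs⟩ := Multiset.card_eq_three.mp hcard
  have hev : ∀ x : N, x ^ 3 + algebraMap K N a * x + algebraMap K N b =
      (x - r) * (x - s) * (x - u) := by
    intro x
    have h := hsp.eval_eq_prod_roots_of_monic (hfm.map _) x
    rw [hrs, hf] at h
    simp only [Polynomial.map_add, Polynomial.map_mul, Polynomial.map_pow, Polynomial.map_X,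
      Polynomial.map_C, Polynomial.eval_add, Polynomial.eval_mul, Polynomial.eval_pow,
      Polynomial.eval_X, Polynomial.eval_C] at h
    rw [h]
    simp [mul_assoc]
  have e0 := hev 0
  have e1 := hev 1
  have e2 := hev (-1)
  have hs1 : r + s + u = 0 := by
    have : (2 : N) * (r + s + u) = 0 := by linear_combination e1 + e2 - 2 * e0
    simpa using this
  have hs2 : r * s + r * u + s * u = algebraMap K N a := by
    have : (2 : N) * (r * s + r * u + s * u - algebraMap K N a) = 0 := by
      linear_combination e2 - e1
    have h := (mul_eq_zero.mp this).resolve_left two_ne_zero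
    linear_combination h
  have hs3 : r * s * u = -algebraMap K N b := by linear_combination e0
  have hdisc := Ex_disc hs1 hs2 hs3
  refine hsq ⟨(r - s) * (r - u) * (s - u), ?_⟩
  rw [← hdisc]
  simp only [map_neg, map_add, map_mul, map_pow, map_ofNat]

section

variable {K F L : Type} [Field K] [NumberField K] [Field F] [NumberField F] [Field L]
  [NumberField L] [Algebra K F] [Algebra F L] {a b : K} {θ : L}

theorem exists_up (S : Ext K F L a b θ) (N : Type) [Field N] [NumberField N] [Algebra K N]
    [Algebra F N] [IsScalarTower K F N] [IsGalois K N]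
    (hsq : ¬ IsSquare (algebraMap K N (-(4 * a ^ 3 + 27 * b ^ 2)))) :
    ∃ (LN : Type) (_ : Field LN) (_ : NumberField LN) (_ : Algebra N LN) (_ : Algebra L LN),
      UpN S N LN := by
  have hir : ∀ t : K, t ^ 3 + a * t + b ≠ 0 := by
    intro t ht
    refine na_root S.cub (algebraMap K F t) ?_
    rw [← map_pow, ← map_mul, ← map_add, ← map_add, ht, map_zero]
  obtain ⟨LN, i1, i2, i3, θN, hc⟩ := H24PD.exists_cub (K := N) (noroot_N hir hsq)
  have hj : θN ^ 3 + ((algebraMap N LN).comp (algebraMap F N)) (algebraMap K F a) * θN +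
      ((algebraMap N LN).comp (algebraMap F N)) (algebraMap K F b) = 0 := by
    rw [RingHom.comp_apply, RingHom.comp_apply, ← IsScalarTower.algebraMap_apply K F N,
      ← IsScalarTower.algebraMap_apply K F N]
    exact hc.root
  obtain ⟨j, hj1, hj2⟩ : ∃ j : L →+* LN, j θ = θN ∧
      ∀ x : F, j (algebraMap F L x) = algebraMap N LN (algebraMap F N x) :=
    ⟨H36MX.rh S.cub _ hj, H36MX.rh_theta _ _ _, fun x => H36MX.rh_algebraMap _ _ _ x⟩
  refine ⟨LN, i1, i2, i3, j.toAlgebra, ?_⟩
  let _ : Algebra L LN := j.toAlgebra
  refine ⟨?_, fun x => hj2 x⟩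
  have e : algebraMap L LN θ = θN := hj1
  rw [e]
  exact hc

end

end H26GX
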