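import Pool.Agent.H88.GX.Ga
import Pool.Agent.H88.GX.Nb2
import Pool.Agent.H30.OD.Od2
import Pool.Agent.H36.O2.Oi

/-!
# MP_78d38b_OD: twists which do not change the Selmer groups

The twisting factor is a square at the bad places, positive, and a unit outside the primes of `K` which split
completely in `F` and at which the cubic has no root.
-/

set_option autoImplicit false
set_option linter.unusedSectionVars false
open scoped Classical

open WithZero NumberField IsDedekindDomain H38RT
open H38T1 (SC sc scu rep eo la si Pri OddP tp unif)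
open H76PP H36CY H88GX H30ZO

namespace H30GX


open H30OD (Dec act act_coe act_cont act_fix loc_idx_tw map_val)
variable {K F L : Type} [Field K] [NumberField K] [Field F] [NumberField F] [Field L]
  [NumberField L] [Algebra K F] [Algebra F L] {a b : K} {θ : L} {S : Ext K F L a b θ}
  {Sg : Finset (HeightOneSpectrum (𝓞 K))}

/-- An element of the decomposition group fixes the place. -/
theorem gq_of_stb {g : F ≃ₐ[K] F} {W : HeightOneSpectrum (𝓞 F)} (h : Stb K W g) :
    gq g • W = W := by
  apply HeightOneSpectrum.ext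
  ext x
  have h1 : (x ∈ (gq g • W).asIdeal) ↔ (gq g • W).valuation F (x : F) < 1 :=
    ((gq g • W).valuation_lt_one_iff_mem (K := F) x).symm
  have h2 : (x ∈ W.asIdeal) ↔ W.valuation F (x : F) < 1 :=
    (W.valuation_lt_one_iff_mem (K := F) x).symm
  have h3 : (gq g • W).valuation F (x : F) = W.valuation F (x : F) := by
    have h4 := H38T1.val_smul (gq g) W (g.symm (x : F))
    rw [gq_apply, AlgEquiv.apply_symm_apply] at h4
    rw [h4]
    have h5 := h (g.symm (x : F))
    rw [AlgEquiv.apply_symm_apply] at h5
    exact h5.symm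
  rw [h1, h2, h3]

/-- If the decomposition group is trivial then the completion does not grow. -/
theorem map_surj (hgal : IsGalois K F) {W : HeightOneSpectrum (𝓞 F)}
    (hdec : ∀ g : F ≃ₐ[K] F, gq g • W = W → g = 1) (x : W.adicCompletion F) :
    ∃ y, (over_dn (K := K) W).map y = x := by
  refine act_fix hgal (fun g => ?_)
  have h1 : g = 1 := Subtype.ext (hdec g.1 (gq_of_stb g.2))
  rw [h1]
  have h2 := act_ext W (f := fun x => act W (1 : Dec K W) x) (f' := fun x => x)
    (act_cont K W _) continuous_id (fun y => by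
      rw [act_coe]
      rfl)
  exact congrFun h2 x

/-- No root appears above a prime which splits completely. -/
theorem noroot_up (hgal : IsGalois K F) {a b : K} {W : HeightOneSpectrum (𝓞 F)}
    (hdec : ∀ g : F ≃ₐ[K] F, gq g • W = W → g = 1)
    (ha : (dn K W).valuation K a ≤ 1) (hb : (dn K W).valuation K b ≤ 1)
    (hroot : ∀ t : K, (dn K W).valuation K t ≤ 1 → (dn K W).valuation K (t ^ 3 + a * t + b) = 1)
    (t : F) (ht : W.valuation F t ≤ 1) :
    W.valuation F (t ^ 3 + algebraMap K F a * t + algebraMap K F b) = 1 := by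
  have hA : W.valuation F (algebraMap K F a) ≤ 1 := val_le ha
  have hB : W.valuation F (algebraMap K F b) ≤ 1 := val_le hb
  obtain ⟨y, hy⟩ := map_surj hgal hdec (algebraMap F (W.adicCompletion F) t)
  obtain ⟨e, he, hval⟩ := map_val K W
  -- approximate by an element of `K`
  have hopen : IsOpen {z : (dn K W).adicCompletion K | Valued.v (z - y) < 1} := by
    have h1 : IsOpen {z : (dn K W).adicCompletion K | Valued.v z < 1} := by
      obtain ⟨c, hc⟩ := (dn K W).valuedAdicCompletion_surjective K
        (1 : WithZero (Multiplicative ℤ))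
      have := Valued.isOpen_ball ((dn K W).adicCompletion K) (Valued.v.restrict c)
      simp_rw [Valuation.restrict_lt_iff] at this
      rwa [hc] at this
    exact h1.preimage (continuous_sub_right y)
  obtain ⟨s, hs⟩ := (HeightOneSpectrum.denseRange_algebraMap (K := K) (dn K W)).exists_mem_open
    hopen ⟨y, by simp⟩
  have hs' : Valued.v (algebraMap K ((dn K W).adicCompletion K) s - y) < 1 := hs
  have hst : W.valuation F (algebraMap K F s - t) < 1 := by
    have h1 : Valued.v (algebraMap F (W.adicCompletion F) (algebraMap K F s - t)) < 1 := by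
      rw [map_sub, ← hy]
      have h2 : algebraMap F (W.adicCompletion F) (algebraMap K F s) =
          (over_dn (K := K) W).map (algebraMap K ((dn K W).adicCompletion K) s) :=
        (Pool.Agent.H10.Over.map_algebraMap _ _).symm
      rw [h2, ← map_sub, hval]
      exact pow_lt_one₀ zero_le hs' he.ne'
    have h3 : Valued.v (algebraMap F (W.adicCompletion F) (algebraMap K F s - t)) =
        W.valuation F (algebraMap K F s - t) :=
      HeightOneSpectrum.valuedAdicCompletion_eq_valuation' W _
    rwa [h3] at h1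
  have hsF : W.valuation F (algebraMap K F s) ≤ 1 := by
    have e1 : algebraMap K F s = (algebraMap K F s - t) + t := by ring
    rw [e1]
    exact Valuation.map_add_le _ hst.le ht
  have hsK : (dn K W).valuation K s ≤ 1 := by
    by_contra hc
    have h1 : (dn K W).valuation K s⁻¹ < 1 := by
      rw [map_inv₀]
      exact inv_lt_one_of_one_lt₀ (not_le.1 hc)
    have h2 := val_lt (w := W) h1
    rw [map_inv₀, map_inv₀] at h2
    have hs0 : s ≠ 0 := by
      rintro rfl
      rw [map_zero] at hc
      exact hc zero_le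
    have h3 : W.valuation F (algebraMap K F s) ≠ 0 :=
      (Valuation.ne_zero_iff _).2 ((map_ne_zero _).2 hs0)
    have h4 := (inv_lt_one₀ (zero_lt_iff.2 h3)).1 h2
    exact absurd hsF (not_le.2 h4)
  have h5 := val_one (w := W) (hroot s hsK)
  have hle : W.valuation F (t ^ 3 + algebraMap K F a * t + algebraMap K F b) ≤ 1 := by
    refine Valuation.map_add_le _ (Valuation.map_add_le _ ?_ ?_) hB
    · rw [map_pow]
      exact pow_le_one₀ zero_le ht
    · rw [map_mul]
      exact mul_le_one₀ hA zero_le ht
  refine le_antisymm hle (not_lt.1 fun hlt => ?_)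
  have h6 : W.valuation F (algebraMap K F (s ^ 3 + a * s + b)) < 1 := by
    have e1 : algebraMap K F (s ^ 3 + a * s + b) = (algebraMap K F s - t) *
        ((algebraMap K F s) ^ 2 + algebraMap K F s * t + t ^ 2 + algebraMap K F a) +
        (t ^ 3 + algebraMap K F a * t + algebraMap K F b) := by
      rw [map_add, map_add, map_mul, map_pow]
      ring
    rw [e1]
    refine Valuation.map_add_lt _ ?_ hlt
    rw [map_mul]
    refine mul_lt_one_of_lt_of_le hst ?_
    refine Valuation.map_add_le _ (Valuation.map_add_le _ (Valuation.map_add_le _ ?_ ?_) ?_) hA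
    · rw [map_pow]
      exact pow_le_one₀ zero_le hsF
    · rw [map_mul]
      exact mul_le_one₀ hsF zero_le ht
    · rw [map_pow]
      exact pow_le_one₀ zero_le ht
  rw [h5] at h6
  exact lt_irrefl _ h6

/-- At an odd place above which there is only one place of `L` the condition of every twist is empty. -/
theorem Wc_all {k L : Type} [Field k] [NumberField k] [Field L] [NumberField L] [Algebra k L]
    {a b : k} {θ : L} (h : Cub k L a b θ) (v : HeightOneSpectrum (𝓞 k))
    (ha : v.valuation k a ≤ 1) (hb : v.valuation k b ≤ 1) (hD : 4 * a ^ 3 + 27 * b ^ 2 ≠ 0)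
    (h2 : v.valuation k 2 = 1) (hnb : H30ZO.nb k L v ≤ 1) {E : k} (hE : E ≠ 0) {c : SC L}
    (hc : c ∈ HH k L) :
    Wc (algebraMap k (v.adicCompletion k)) (E ^ 2 * a) (E ^ 3 * b) (algebraMap k L E * θ) c := by
  have _ : CharZero (v.adicCompletion k) := H36CY.char_zero v
  obtain ⟨W, hW⟩ := exists_WW (Tf_twist h hE) (algebraMap k (v.adicCompletion k)) (by
    intro e
    apply H76OD.Lt_dne hE hD
    apply (algebraMap k (v.adicCompletion k)).injective
    rw [map_zero, map_add, map_mul, map_mul, map_pow, map_pow, map_ofNat, map_ofNat]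
    exact e) (H24PD.inf_fin v _ _)
  obtain ⟨h0, h1⟩ := loc_idx_tw h v ha hb hD hE hW
  rw [qq_odd h2, mul_one] at h1
  have h2n : 2 ^ H30ZO.nb k L v ≤ 2 ^ 1 := Nat.pow_le_pow_right (by norm_num) hnb
  have hidx : W.relIndex (HH k L) = 1 := by omega
  exact ((hW _).1 (AddSubgroup.relIndex_eq_one.1 hidx hc)).2

/-- **The Selmer group does not change.** -/
theorem V_same (S : Ext K F L a b θ) {D : K} (hok : S.Ok D Sg) {δ : K} (hδ0 : δ ≠ 0)
    (hsq : ∀ u ∈ Sg, IsSquare (algebraMap K (u.adicCompletion K) δ))
    (hpos : ∀ s : K →+* ℝ, 0 < s δ)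
    (hout : ∀ u : HeightOneSpectrum (𝓞 K), u.valuation K δ ≠ 1 →
      (∀ W : HeightOneSpectrum (𝓞 F), dn K W = u → ∀ g : F ≃ₐ[K] F, gq g • W = W → g = 1) ∧
      ∀ t : K, u.valuation K t ≤ 1 → u.valuation K (t ^ 3 + a * t + b) = 1) (c : SC L) :
    S.V (D * δ) c ↔ S.V D c := by
  have hD0 : algebraMap K F D ≠ 0 := (map_ne_zero _).2 hok.ne
  have hDδ0 : algebraMap K F (D * δ) ≠ 0 := (map_ne_zero _).2 (mul_ne_zero hok.ne hδ0)
  have hquot : algebraMap K F D / algebraMap K F (D * δ) = (algebraMap K F δ)⁻¹ := by
    have h1 : algebraMap K F δ ≠ 0 := (map_ne_zero _).2 hδ0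
    rw [map_mul]
    field_simp
  have hquot' : algebraMap K F (D * δ) / algebraMap K F D = algebraMap K F δ := by
    rw [map_mul]
    field_simp
  have key : ∀ v : HeightOneSpectrum (𝓞 F), c ∈ HH F L → (S.Lv (D * δ) v c ↔ S.Lv D v c) := by
    intro v hc
    rw [Lv_iff, Lv_iff]
    have hav : v.valuation F (algebraMap K F a) ≤ 1 := val_le (S.ha _)
    have hbv : v.valuation F (algebraMap K F b) ≤ 1 := val_le (S.hb _)
    by_cases h1 : dn K v ∈ Sg
    · refine (H76OD.Wc_tw_iff _ hDδ0 hD0 ?_)
      rw [hquot, map_inv₀]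
      refine IsSquare.inv ?_
      obtain ⟨r, hr⟩ := hsq _ h1
      have h2 : algebraMap F (v.adicCompletion F) (algebraMap K F δ) =
          (over_dn (K := K) v).map (algebraMap K ((dn K v).adicCompletion K) δ) :=
        (Pool.Agent.H10.Over.map_algebraMap _ _).symm
      rw [h2, hr, map_mul]
      exact ⟨_, rfl⟩
    · have h2 : v.valuation F 2 = 1 := by
        have := val_one (w := v) (hok.two _ h1)
        rwa [map_ofNat] at this
      by_cases h3 : (dn K v).valuation K δ = 1
      · have hd : v.valuation F (4 * (algebraMap K F a) ^ 3 + 27 * (algebraMap K F b) ^ 2) = 1 := by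
          have := val_one (w := v) (hok.dis _ h1)
          rwa [map_add, map_mul, map_mul, map_pow, map_pow, map_ofNat, map_ofNat] at this
        have hD : v.valuation F (algebraMap K F D) = 1 := val_one (hok.val _ h1)
        have hDδ : v.valuation F (algebraMap K F (D * δ)) = 1 := by
          apply val_one
          rw [map_mul, hok.val _ h1, h3, one_mul]
        rw [H76OD.Wc_good S.cub v hav hbv h2 hd hDδ hc, H76OD.Wc_good S.cub v hav hbv h2 hd hD hc]
      · obtain ⟨hdec, hroot⟩ := hout _ h3
        have hnr : H73P2.NoRootAt v (algebraMap K F a) (algebraMap K F b) := by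
          refine ⟨1, algebraMap K F a, algebraMap K F b, one_ne_zero, ?_, ?_, hav, hbv, ?_⟩
          · rw [one_pow, one_mul]
          · rw [one_pow, one_mul]
          · exact noroot_up S.gal (hdec v rfl) (S.ha _) (S.hb _) hroot
        have hnb := H36O2.Oi_nb S.cub hnr
        exact ⟨fun _ => Wc_all S.cub v hav hbv (dne_F S) h2 hnb hD0 hc,
          fun _ => Wc_all S.cub v hav hbv (dne_F S) h2 hnb hDδ0 hc⟩
  have keyr : ∀ s : F →+* ℝ, (S.Lr (D * δ) s c ↔ S.Lr D s c) := by
    intro s
    rw [Lr_iff, Lr_iff]
    refine H76OD.Wc_tw_real s hDδ0 hD0 ?_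
    rw [hquot, map_inv₀]
    exact inv_pos.2 (hpos (s.comp (algebraMap K F)))
  constructor
  · intro h
    exact ⟨h.hh, fun v => (key v h.hh).1 (h.fin v), fun s => (keyr s).1 (h.inf s)⟩
  · intro h
    exact ⟨h.hh, fun v => (key v h.hh).2 (h.fin v), fun s => (keyr s).2 (h.inf s)⟩

end H30GX
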